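import Pool.Agent.Y35.QP.Grp

/-!
# Confining subsets containing the vertex group
-/

set_option autoImplicit false

namespace Pool.Agent.Y35.QP

open Equiv
open scoped Pointwise

/-- Hypotheses on the confining subset. -/
structure Conf (Q : Set GG) (n0 : ℕ) : Prop where
  sub : KK 0 ⊆ Q
  slz : ∀ h ∈ Q, sl h = 0
  inv : ∀ h ∈ Q, h⁻¹ ∈ Q
  shift : ∀ h ∈ Q, ∀ j : ℕ, tt ^ j * h * (tt ^ j)⁻¹ ∈ Q
  mul : ∀ h ∈ Q, ∀ h' ∈ Q, tt ^ n0 * (h * h') * (tt ^ n0)⁻¹ ∈ Q

variable {Q : Set GG} {n0 : ℕ}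

lemma Conf.one (hQ : Conf Q n0) : (1 : GG) ∈ Q := hQ.sub (KK_one 0)

lemma Conf.pow_mono (hQ : Conf Q n0) {m n : ℕ} (h : m ≤ n) : Q ^ m ⊆ Q ^ n :=
  Set.pow_subset_pow_right hQ.one h

lemma mul_mem_pow {a b : GG} {m n : ℕ} (ha : a ∈ Q ^ m) (hb : b ∈ Q ^ n) :
    a * b ∈ Q ^ (m + n) := by
  rw [pow_add]
  exact Set.mul_mem_mul ha hb

lemma mem_pow_one {a : GG} (ha : a ∈ Q) : a ∈ Q ^ 1 := by rwa [pow_one]

lemma Conf.pow2 (hQ : Conf Q n0) (k : ℕ) :
    ∀ a ∈ Q ^ (2 ^ k), tt ^ (n0 * k) * a * (tt ^ (n0 * k))⁻¹ ∈ Q := by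
  induction k with
  | zero =>
    intro a ha
    simpa using ha
  | succ k ih =>
    intro a ha
    have e : 2 ^ (k + 1) = 2 ^ k + 2 ^ k := by ring
    rw [e, pow_add] at ha
    obtain ⟨b, hb, c, hc, rfl⟩ := Set.mem_mul.1 ha
    have h1 := hQ.mul _ (ih b hb) _ (ih c hc)
    have e2 : tt ^ (n0 * (k + 1)) * (b * c) * (tt ^ (n0 * (k + 1)))⁻¹ =
        tt ^ n0 * (tt ^ (n0 * k) * b * (tt ^ (n0 * k))⁻¹ *
          (tt ^ (n0 * k) * c * (tt ^ (n0 * k))⁻¹)) * (tt ^ n0)⁻¹ := by
      have : n0 * (k + 1) = n0 + n0 * k := by ring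
      rw [this, pow_add]
      group
    rw [e2]
    exact h1

lemma exists_small (n0 : ℕ) :
    ∃ k : ℕ, 1 + 3 * (n0 * k + 1) * (4 * (n0 * k + 1) + 1) ≤ 2 ^ k := by
  refine ⟨4 * (40 * (n0 + 1)), ?_⟩
  set m := 40 * (n0 + 1) with hm
  have h1 : m + 1 ≤ 2 ^ m := Nat.lt_two_pow_self
  have h2 : (m + 1) ^ 4 ≤ 2 ^ (4 * m) := by
    rw [mul_comm 4 m, pow_mul]
    exact Nat.pow_le_pow_left h1 4
  refine le_trans ?_ h2
  have h3 : n0 ≤ m := by omega
  have h4 : n0 * (4 * m) + 1 ≤ 4 * (n0 + 1) * (m + 1) := by nlinarith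
  set w := n0 * (4 * m) + 1 with hw
  have hw1 : 1 ≤ w := by omega
  have h5 : 1 + 3 * w * (4 * w + 1) ≤ 16 * w ^ 2 := by nlinarith
  have h6 : w ^ 2 ≤ (4 * (n0 + 1) * (m + 1)) ^ 2 := Nat.pow_le_pow_left h4 2
  have h7 : 16 * (4 * (n0 + 1) * (m + 1)) ^ 2 ≤ (m + 1) ^ 4 := by
    have e1 : 16 * (4 * (n0 + 1) * (m + 1)) ^ 2 = (16 * (n0 + 1)) ^ 2 * (m + 1) ^ 2 := by ring
    have e2 : (m + 1) ^ 4 = (m + 1) ^ 2 * (m + 1) ^ 2 := by ring
    rw [e1, e2]
    apply Nat.mul_le_mul_right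
    apply Nat.pow_le_pow_left
    omega
  linarith

/-- the swaps of the points below `-M` with the points above -/
lemma Conf.swaps (hQ : Conf Q n0) {M : ℕ} (hM : KK M ⊆ Q) {c : ℕ} {h : GG} (hh : h ∈ Q)
    {x0 : ℤ} (h1 : ∀ x, x < x0 → h.1 x = x) (h2 : h.1 x0 ≠ x0) (h3 : x0 ≤ -(M + c)) :
    ∀ i : ℕ, 1 ≤ i → i ≤ c → ∀ v : ℤ, -M ≤ v → sw (-M - i) v ∈ Q ^ (4 * i + 1) := by
  have hx0 : x0 < h.1 x0 := by
    rcases lt_trichotomy (h.1 x0) x0 with hlt | heq | hgt
    · exact absurd (h.1.injective (h1 _ hlt)) h2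
    · exact absurd heq h2
    · exact hgt
  obtain ⟨d, hd⟩ : ∃ d : ℕ, h.1 x0 = x0 + d := ⟨(h.1 x0 - x0).toNat, by omega⟩
  have hd1 : 1 ≤ d := by omega
  intro i
  induction i using Nat.strong_induction_on with
  | _ i ih =>
    intro hi1 hic v hv
    -- the shifted element
    obtain ⟨j, hj⟩ : ∃ j : ℕ, x0 + j = -M - i := ⟨(-M - i - x0).toNat, by omega⟩
    set g : GG := tt ^ j * h * (tt ^ j)⁻¹ with hg
    have hgQ : g ∈ Q := hQ.shift h hh j
    have hgiQ : g⁻¹ ∈ Q := hQ.inv _ hgQ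
    have hg1 : ∀ x : ℤ, x < -M - i → g.1 x = x := by
      intro x hx
      rw [hg, conj_apply, h1 _ (by omega)]
      ring
    have hg2 : g.1 (-M - i) = -M - i + d := by
      rw [hg, conj_apply, ← hj]
      have e : x0 + (j : ℤ) - j = x0 := by ring
      rw [e, hd]
      ring
    -- a point `w`
    have hw : ∃ w : ℤ, -(M : ℤ) ≤ w ∧ -(M : ℤ) ≤ g.1 w := by
      by_contra hcon
      push Not at hcon
      -- all images of `[-M, ∞)` lie in the finite interval
      have hmaps : Set.MapsTo g.1 (Set.Ici (-(M : ℤ))) (Set.Ico (-(M : ℤ) - i) (-(M : ℤ))) := by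
        intro w hw
        have hw' : -(M : ℤ) ≤ w := hw
        refine ⟨?_, hcon w hw⟩
        by_contra hlt
        have hlt' : g.1 w < -(M : ℤ) - i := not_le.1 hlt
        have := g.1.injective (hg1 _ hlt')
        omega
      have hfin : (Set.Ici (-(M : ℤ))).Finite :=
        Set.Finite.of_injOn hmaps g.1.injective.injOn (Set.finite_Ico _ _)
      exact Set.Ici_infinite _ hfin
    obtain ⟨w, hw1, hw2⟩ := hw
    have hinv1 : (g⁻¹).1 (-M - i + d) = -M - i := by rw [← hg2, inv_app]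
    have hinv2 : (g⁻¹).1 (g.1 w) = w := inv_app g w
    -- the swap `sw (-M - i) w`
    have hsw : sw (-M - i) w ∈ Q ^ (4 * i - 1) := by
      have hconj : g⁻¹ * sw (-M - i + d) (g.1 w) * g⁻¹⁻¹ = sw (-M - i) w := by
        rw [sw_conj, hinv1, hinv2]
      rw [← hconj, inv_inv]
      by_cases hid : i ≤ d
      · have hs : sw (-M - i + d) (g.1 w) ∈ Q := hM (sw_KK (by omega) hw2)
        have := mul_mem_pow (mul_mem_pow (mem_pow_one hgiQ) (mem_pow_one hs)) (mem_pow_one hgQ)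
        exact hQ.pow_mono (by omega) this
      · have hs := ih (i - d) (by omega) (by omega) (by omega) (g.1 w) hw2
        have e : (-(M : ℤ) - ((i - d : ℕ) : ℤ)) = -M - i + d := by
          rw [Nat.cast_sub (by omega)]; ring
        rw [e] at hs
        have := mul_mem_pow (mul_mem_pow (mem_pow_one hgiQ) hs) (mem_pow_one hgQ)
        exact hQ.pow_mono (by omega) this
    have hconj2 : sw w v * sw (-M - i) w * (sw w v)⁻¹ = sw (-M - i) v := by
      rw [sw_conj, sw_left, sw_ne (by omega) (by omega)]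
    rw [← hconj2, sw_inv]
    have hs : sw w v ∈ Q := hM (sw_KK hw1 hv)
    have := mul_mem_pow (mul_mem_pow (mem_pow_one hs) hsw) (mem_pow_one hs)
    exact hQ.pow_mono (by omega) this

lemma Conf.fill (hQ : Conf Q n0) {M : ℕ} (hM : KK M ⊆ Q) {c : ℕ}
    (hs : ∀ i : ℕ, 1 ≤ i → i ≤ c → ∀ v : ℤ, -M ≤ v → sw (-M - i) v ∈ Q ^ (4 * i + 1)) :
    ∀ i : ℕ, i ≤ c → KK (M + i) ⊆ Q ^ (1 + 3 * i * (4 * c + 1)) := by
  intro i
  induction i with
  | zero =>
    intro _ g hg
    have : g ∈ Q := hM (by simpa using hg)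
    simpa using this
  | succ i ih =>
    intro hi g hg
    have hle : 1 + 3 * i * (4 * c + 1) ≤ 1 + 3 * (i + 1) * (4 * c + 1) := by nlinarith
    set x : ℤ := -M - (i + 1) with hx
    have hg' : ∀ z, z < x → g.1 z = z := fun z hz => hg z (by push_cast; omega)
    by_cases hgx : g.1 x = x
    · refine hQ.pow_mono hle (ih (by omega) ?_)
      intro z hz
      rcases lt_or_eq_of_le (show z ≤ x by omega) with h | h
      · exact hg' z h
      · rw [h, hgx]
    · set y := g.1 x with hy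
      have hxy : x < y := by
        rcases lt_trichotomy y x with hlt | heq | hgt
        · have := g.1.injective (hg' _ hlt)
          exact absurd this (by omega)
        · exact absurd heq hgx
        · exact hgt
      have hτg : sw x y * g ∈ KK (M + i) := by
        intro z hz
        rw [mul_app]
        rcases lt_or_eq_of_le (show z ≤ x by omega) with h | h
        · rw [hg' z h, sw_ne (by omega) (by omega)]
        · rw [h, ← hy, sw_right]
      have h1 := ih (by omega) hτg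
      have hτ : sw x y ∈ Q ^ (3 * (4 * c + 1)) := by
        by_cases hyM : -M ≤ y
        · have := hs (i + 1) (by omega) hi y hyM
          have e : (-(M : ℤ) - ((i + 1 : ℕ) : ℤ)) = x := by push_cast; rw [hx]
          rw [e] at this
          exact hQ.pow_mono (by omega) this
        · obtain ⟨j, hj⟩ : ∃ j : ℕ, y = -M - j := ⟨(-M - y).toNat, by omega⟩
          have a1 := hs (i + 1) (by omega) hi (-M) le_rfl
          have a2 := hs j (by omega) (by omega) (-M) le_rfl
          have e : (-(M : ℤ) - ((i + 1 : ℕ) : ℤ)) = x := by push_cast; rw [hx]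
          rw [e] at a1
          rw [← hj] at a2
          have hconj : sw x (-M) * sw y (-M) * (sw x (-M))⁻¹ = sw x y := by
            rw [sw_conj, sw_right, sw_ne (by omega) (by omega), sw_comm]
          rw [← hconj, sw_inv]
          have b1 : sw x (-M) ∈ Q ^ (4 * c + 1) := hQ.pow_mono (by omega) a1
          have b2 : sw y (-M) ∈ Q ^ (4 * c + 1) := hQ.pow_mono (by omega) a2
          have := mul_mem_pow (mul_mem_pow b1 b2) b1
          exact hQ.pow_mono (by omega) this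
      have h2 : g = sw x y * (sw x y * g) := by
        rw [← mul_assoc]
        have : sw x y * sw x y = 1 := by
          have := mul_inv_cancel (sw x y)
          rwa [sw_inv] at this
        rw [this, one_mul]
      rw [h2]
      have := mul_mem_pow hτ h1
      refine hQ.pow_mono ?_ this
      nlinarith

/-- Dichotomy for confining subsets. -/
theorem Conf.dich (hQ : Conf Q n0) : (∃ M : ℕ, Q ⊆ KK M) ∨ (∀ M : ℕ, KK M ⊆ Q) := by
  by_cases hcase : ∃ M : ℕ, Q ⊆ KK M
  · exact Or.inl hcase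
  right
  push Not at hcase
  obtain ⟨k, hk⟩ := exists_small n0
  intro M
  induction M with
  | zero => exact_mod_cast hQ.sub
  | succ M ih =>
    set c0 := n0 * k with hc0
    obtain ⟨h, hhQ, hh⟩ := Set.not_subset.1 (hcase (M + c0))
    have hex : ∃ x : ℤ, h.1 x ≠ x := by
      by_contra hcon
      push Not at hcon
      exact hh (fun x _ => hcon x)
    obtain ⟨B, hB⟩ := exists_KK (hQ.slz h hhQ)
    obtain ⟨x0, hx0, hmin⟩ := Int.exists_least_of_bdd (P := fun x => h.1 x ≠ x)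
      ⟨-B, fun z hz => by
        by_contra hlt
        exact hz (hB z (by omega))⟩ hex
    have h1 : ∀ x, x < x0 → h.1 x = x := by
      intro x hx
      by_contra hne
      have := hmin x hne
      omega
    have h3 : x0 ≤ -((M : ℤ) + (c0 + 1 : ℕ)) := by
      by_contra hlt
      apply hh
      intro x hx
      apply h1
      push_cast at hlt hx ⊢
      omega
    have hs := hQ.swaps ih hhQ h1 hx0 h3
    have hf := hQ.fill ih hs (c0 + 1) le_rfl
    intro g hg
    -- write `g` as a conjugate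
    set g' : GG := (tt ^ c0)⁻¹ * g * tt ^ c0 with hg'
    have e : tt ^ c0 * g' * (tt ^ c0)⁻¹ = g := by rw [hg']; group
    have hg'K : g' ∈ KK ((M : ℤ) + (c0 + 1 : ℕ)) := by
      apply mem_KK_of_conj (j := c0)
      rw [e]
      refine KK_mono ?_ hg
      push_cast
      omega
    have h4 : g' ∈ Q ^ (2 ^ k) := by
      refine hQ.pow_mono ?_ (hf hg'K)
      exact hk
    have h5 := hQ.pow2 k g' h4
    rw [← hc0, e] at h5
    exact h5

end Pool.Agent.Y35.QP
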