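import Pool.Agent.Y35.QP.Tree
import Pool.Agent.Y35.QP.Conf

/-!
# Uniqueness of the quasi-parabolic structure
-/

set_option autoImplicit false

namespace Pool.Agent.Y35.QP

open Equiv
open scoped Pointwise

lemma sl_conj (g h : GG) : sl (h * g * h⁻¹) = sl g := by
  rw [sl_mul, sl_mul, sl_inv]; ring

lemma sl_zpow (z : ℤ) : sl (tt ^ z) = z := by
  rcases z with z | z
  · show sl (tt ^ z) = z
    rw [sl_pow, sl_tt, mul_one]
  · rw [zpow_negSucc, sl_inv, sl_pow, sl_tt, Int.negSucc_eq]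
    push_cast
    ring

section

variable {L : GG → ℝ} {δ : ℝ} (hL : HLen L δ) {CK : ℝ} (hCK : ∀ g ∈ KK 0, L g ≤ CK)

include hL

lemma L_zpow (z : ℤ) : L (tt ^ z) = L (tt ^ z.natAbs) := by
  rcases z with z | z
  · rfl
  · rw [zpow_negSucc, hL.inv]
    rfl

lemma L_le_conj (g t : GG) : L g ≤ L (t * g * t⁻¹) + 2 * L t := by
  have h1 := hL.mul (t⁻¹ * (t * g * t⁻¹)) t
  have h2 := hL.mul t⁻¹ (t * g * t⁻¹)
  have e : t⁻¹ * (t * g * t⁻¹) * t = g := by group
  rw [e] at h1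
  rw [hL.inv] at h2
  linarith

lemma L_conj_le (g t : GG) : L (t * g * t⁻¹) ≤ L g + 2 * L t := by
  have h1 := hL.mul (t * g) t⁻¹
  have h2 := hL.mul t g
  rw [hL.inv] at h1
  linarith

include hCK

lemma L_KK {M : ℕ} {h : GG} (hh : h ∈ KK M) : L h ≤ CK + 2 * L (tt ^ M) := by
  have h1 := conj_mem_KK (j := M) hh
  rw [sub_self] at h1
  have := hCK _ h1
  have := L_le_conj hL h (tt ^ M)
  linarith

/-- Comparison of the powers of an element with powers of the translation. -/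
lemma L_pow_cmp {g : GG} {M p : ℕ} (hM : ∀ x, x < -(M : ℤ) → g.1 x = x + sl g)
    (hneg : sl g < 0) (hp : sl g = -p) (j : ℕ) :
    L (g ^ j) ≤ L (tt ^ (p * j)) + (CK + 2 * L (tt ^ M)) ∧
      L (tt ^ (p * j)) ≤ L (g ^ j) + (CK + 2 * L (tt ^ M)) := by
  set y : GG := tt ^ M * g ^ j * (tt ^ M)⁻¹ with hy
  have hk : tt ^ (p * j) * y ∈ KK 0 := by
    intro x hx
    rw [mul_app, hy, conj_apply, neg_pow_apply (M := -(M : ℤ)) hM hneg j _ (by omega),
      tt_pow_apply, hp]
    push_cast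
    ring
  have h1 := hCK _ hk
  have h2 := L_le_conj hL (g ^ j) (tt ^ M)
  have h3 := L_conj_le hL (g ^ j) (tt ^ M)
  rw [← hy] at h2 h3
  have h4 := hL.mul (tt ^ (p * j))⁻¹ (tt ^ (p * j) * y)
  rw [inv_mul_cancel_left, hL.inv] at h4
  have h5 := hL.mul (tt ^ (p * j) * y) y⁻¹
  rw [mul_inv_cancel_right, hL.inv] at h5
  constructor <;> linarith

lemma growth_of_neg {g : GG} (hneg : sl g < 0) {c : ℝ} (hc : 0 < c)
    (hg : ∀ n : ℕ, c * n ≤ L (g ^ n)) :
    ∃ c' C' : ℝ, 0 < c' ∧ ∀ n : ℕ, c' * n - C' ≤ L (tt ^ n) := by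
  obtain ⟨m, hm⟩ := sl_spec g
  obtain ⟨M, hM⟩ : ∃ M : ℕ, -(M : ℤ) ≤ m := ⟨(-m).toNat, by omega⟩
  obtain ⟨p, hp⟩ : ∃ p : ℕ, sl g = -p := ⟨(-sl g).toNat, by omega⟩
  have hp1 : 1 ≤ p := by omega
  have hcmp := fun j => (L_pow_cmp hL hCK (M := M) (p := p)
    (fun x hx => hm x (by omega)) hneg hp j).1
  have hp0 : (0 : ℝ) < p := by exact_mod_cast hp1
  have ht0 := hL.nonneg tt
  refine ⟨c / p, c + (CK + 2 * L (tt ^ M)) + p * L tt, by positivity, fun n => ?_⟩
  have hn := Nat.div_add_mod n p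
  have hr := Nat.mod_lt n (show 0 < p by omega)
  set q := n / p
  set r := n % p
  have h1 := hcmp q
  have h2 := hg q
  have h3 : L (tt ^ (p * q)) ≤ L (tt ^ n) + L (tt ^ r) := by
    have h4 := hL.mul (tt ^ n) (tt ^ r)⁻¹
    have e : tt ^ n * (tt ^ r)⁻¹ = tt ^ (p * q) := by
      rw [← hn, pow_add, mul_inv_cancel_right]
    rw [e, hL.inv] at h4
    exact h4
  have h5 : L (tt ^ r) ≤ p * L tt := by
    have h6 := hL.pow_le tt r
    have h7 : (r : ℝ) ≤ p := by exact_mod_cast hr.le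
    nlinarith
  have h8 : (n : ℝ) = p * q + r := by exact_mod_cast hn.symm
  have h9 : (r : ℝ) ≤ p := by exact_mod_cast hr.le
  have h10 : c / p * n ≤ c * q + c := by
    rw [h8, div_mul_eq_mul_div, div_le_iff₀ hp0]
    nlinarith
  linarith

end

/-- Uniqueness. -/
theorem unique {Y : Set GG} (hY : wqp Y) :
    (∃ C : ℕ, ∀ y ∈ Y, wl XX y ≤ C) ∧ (∃ C : ℕ, ∀ x ∈ XX, wl Y x ≤ C) := by
  obtain ⟨hgen, ⟨δ0, hδ⟩, ⟨g, h, hg, hh, hne⟩, -⟩ := hY
  have hL := wl_hLen hgen hδ
  set L : GG → ℝ := fun g => (wl Y g : ℝ) with hLdef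
  set δ := max δ0 0 with hδdef
  obtain ⟨CK, hCK⟩ := bdd_KK hL.toIsLen
  have hCK0 : 0 ≤ CK := by
    have := hCK 1 (KK_one 0)
    rwa [hL.one] at this
  -- the second part
  refine ⟨?_, ⟨max ⌈CK⌉₊ (wl Y tt), ?_⟩⟩
  swap
  · rintro x (hx | hx)
    · refine le_trans ?_ (le_max_left _ _)
      have h1 : (wl Y x : ℝ) ≤ CK := hCK x hx
      have h2 := Nat.le_ceil CK
      exact_mod_cast h1.trans h2
    · rw [Set.mem_singleton_iff.1 hx]
      exact le_max_right _ _
  -- loxodromic elements have nonzero translation length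
  have hlox : ∀ g : GG, wlox Y g → sl g ≠ 0 := by
    rintro g ⟨c, hc, hcg⟩ h0
    obtain ⟨M, hM⟩ := exists_KK h0
    obtain ⟨n, hn⟩ := exists_nat_gt ((CK + 2 * L (tt ^ M)) / c)
    have h1 : c * n ≤ L (g ^ n) := hcg n
    have h2 := L_KK hL hCK (KK_pow hM n)
    rw [div_lt_iff₀ hc] at hn
    linarith
  have hg0 := hlox g hg
  have hh0 := hlox h hh
  -- linear growth
  obtain ⟨c1, C1, hc1, hgr⟩ : ∃ c' C' : ℝ, 0 < c' ∧ ∀ n : ℕ, c' * n - C' ≤ L (tt ^ n) := by
    obtain ⟨c, hc, hcg⟩ := hg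
    rcases lt_or_gt_of_ne hg0 with h1 | h1
    · exact growth_of_neg hL hCK h1 hc hcg
    · refine growth_of_neg hL hCK (g := g⁻¹) (by rw [sl_inv]; omega) hc (fun n => ?_)
      rw [inv_pow, hL.inv]
      exact hcg n
  obtain ⟨E, hE0, hnear⟩ := hL.near tt hc1 hgr
  have hd := hL.dnn
  set E2 : ℝ := 3 * CK + 4 * δ + 2 * E with hE2
  have hcontr : ∀ h : GG, sl h = 0 → ∀ j : ℕ,
      L (tt ^ j * h * (tt ^ j)⁻¹) ≤ max 0 (L h - 2 * L (tt ^ j)) + E2 := by
    intro h hh j
    obtain ⟨M, hM⟩ := exists_KK hh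
    refine hL.contract tt hnear hE0 h M (fun N hN => hCK _ ?_) j
    exact KK_mono (by omega) (conj_mem_KK (j := N) hM)
  set Cst : ℝ := E2 + CK with hCst
  have hCst0 : 0 ≤ Cst := by positivity
  have hE2C : E2 ≤ Cst := by linarith
  have hCKC : CK ≤ Cst := by
    have : 0 ≤ E2 := by positivity
    linarith
  have htend : ∀ K : ℝ, ∃ J : ℕ, ∀ j : ℕ, J ≤ j → K ≤ L (tt ^ j) := by
    intro K
    obtain ⟨J, hJ⟩ := exists_nat_gt ((K + C1) / c1)
    refine ⟨J, fun j hj => ?_⟩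
    have h1 := hgr j
    rw [div_lt_iff₀ hc1] at hJ
    have h2 : (J : ℝ) ≤ j := by exact_mod_cast hj
    nlinarith
  obtain ⟨n0, hn0⟩ := htend Cst
  set Q : Set GG := {h | sl h = 0 ∧ ∀ j : ℕ, L (tt ^ j * h * (tt ^ j)⁻¹) ≤ Cst} with hQ
  have hconf : Conf Q n0 := by
    refine ⟨?_, ?_, ?_, ?_, ?_⟩
    · intro h hh
      refine ⟨KK_sl hh, fun j => (hCK _ ?_).trans hCKC⟩
      exact KK_mono (by omega) (conj_mem_KK (j := j) hh)
    · intro h hh
      exact hh.1
    · intro h hh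
      refine ⟨by rw [sl_inv, hh.1, neg_zero], fun j => ?_⟩
      have e : tt ^ j * h⁻¹ * (tt ^ j)⁻¹ = (tt ^ j * h * (tt ^ j)⁻¹)⁻¹ := by group
      rw [e, hL.inv]
      exact hh.2 j
    · intro h hh i
      refine ⟨by rw [sl_conj, hh.1], fun j => ?_⟩
      have e : tt ^ j * (tt ^ i * h * (tt ^ i)⁻¹) * (tt ^ j)⁻¹ =
          tt ^ (j + i) * h * (tt ^ (j + i))⁻¹ := by rw [pow_add]; group
      rw [e]
      exact hh.2 _
    · intro h hh h' hh'
      refine ⟨by rw [sl_conj, sl_mul, hh.1, hh'.1, add_zero], fun j => ?_⟩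
      have e : tt ^ j * (tt ^ n0 * (h * h') * (tt ^ n0)⁻¹) * (tt ^ j)⁻¹ =
          tt ^ n0 * ((tt ^ j * h * (tt ^ j)⁻¹) * (tt ^ j * h' * (tt ^ j)⁻¹)) * (tt ^ n0)⁻¹ := by
        rw [show tt ^ j * (tt ^ n0 * (h * h') * (tt ^ n0)⁻¹) * (tt ^ j)⁻¹ =
          (tt ^ j * tt ^ n0) * (h * h') * (tt ^ j * tt ^ n0)⁻¹ by group]
        rw [← pow_add, add_comm, pow_add]
        group
      rw [e]
      set g1 := (tt ^ j * h * (tt ^ j)⁻¹) * (tt ^ j * h' * (tt ^ j)⁻¹) with hg1
      have hs : sl g1 = 0 := by rw [hg1, sl_mul, sl_conj, sl_conj, hh.1, hh'.1, add_zero]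
      have h1 := hcontr g1 hs n0
      have h2 : L g1 ≤ 2 * Cst := by
        have := hL.mul (tt ^ j * h * (tt ^ j)⁻¹) (tt ^ j * h' * (tt ^ j)⁻¹)
        have := hh.2 j
        have := hh'.2 j
        linarith
      have h3 := hn0 n0 le_rfl
      have h4 : max 0 (L g1 - 2 * L (tt ^ n0)) = 0 := max_eq_left (by linarith)
      rw [h4] at h1
      linarith
  rcases hconf.dich with ⟨M, hM⟩ | hall
  · -- the structure is the given one
    -- bound on translation lengths
    have hsl : ∀ y : GG, L y ≤ 1 → c1 * |(sl y : ℝ)| ≤ 1 := by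
      have hneg : ∀ y : GG, L y ≤ 1 → sl y < 0 → c1 * |(sl y : ℝ)| ≤ 1 := by
        intro y hy hsy
        obtain ⟨m, hm⟩ := sl_spec y
        obtain ⟨M', hM'⟩ : ∃ M' : ℕ, -(M' : ℤ) ≤ m := ⟨(-m).toNat, by omega⟩
        obtain ⟨p, hp⟩ : ∃ p : ℕ, sl y = -p := ⟨(-sl y).toNat, by omega⟩
        have hcmp := fun j => (L_pow_cmp hL hCK (M := M') (p := p)
          (fun x hx => hm x (by omega)) hsy hp j).2
        by_contra hlt
        push Not at hlt
        have habs : |(sl y : ℝ)| = p := by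
          rw [hp]; push_cast; rw [abs_neg, abs_of_nonneg]; exact Nat.cast_nonneg p
        rw [habs] at hlt
        obtain ⟨j, hj⟩ := exists_nat_gt ((C1 + (CK + 2 * L (tt ^ M'))) / (c1 * p - 1))
        rw [div_lt_iff₀ (by linarith)] at hj
        have h1 := hcmp j
        have h2 := hgr (p * j)
        have h3 := hL.pow_le y j
        have h4 : (j : ℝ) * L y ≤ j := by
          have : (0 : ℝ) ≤ j := Nat.cast_nonneg j
          nlinarith
        push_cast at h2
        nlinarith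
      intro y hy
      rcases lt_trichotomy (sl y) 0 with h1 | h1 | h1
      · exact hneg y hy h1
      · rw [h1]; simp
      · have h2 := hneg y⁻¹ (by rw [hL.inv]; exact hy) (by rw [sl_inv]; omega)
        rw [sl_inv] at h2
        push_cast at h2
        rwa [abs_neg] at h2
    obtain ⟨P, hP⟩ := exists_nat_gt (1 / c1)
    obtain ⟨J, hJ⟩ := htend (1 + P * L tt)
    refine ⟨2 * (M + J) + 1 + P, fun y hy => ?_⟩
    have hy1 : L y ≤ 1 := by
      have h0 : wl Y y ≤ 1 := wl_gen hy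
      have h0' : (wl Y y : ℝ) ≤ 1 := by exact_mod_cast h0
      exact h0'
    have h1 := hsl y hy1
    have hPy : |sl y| ≤ P := by
      have : |(sl y : ℝ)| ≤ P := by
        rw [div_lt_iff₀ hc1] at hP
        have h2 : |(sl y : ℝ)| * c1 < P * c1 := by linarith
        exact (lt_of_mul_lt_mul_right h2 hc1.le).le
      exact_mod_cast this
    set f : GG := y * tt ^ (-sl y) with hf
    have hfs : sl f = 0 := by rw [hf, sl_mul, sl_zpow]; ring
    have hLf : L f ≤ 1 + P * L tt := by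
      have h2 := hL.mul y (tt ^ (-sl y))
      have h3 := L_zpow hL (-sl y)
      have h4 := hL.pow_le tt (-sl y).natAbs
      have h5 : ((-sl y).natAbs : ℝ) ≤ P := by
        have : (-sl y).natAbs ≤ P := by
          rw [Int.natAbs_neg]
          have := abs_le.1 hPy
          omega
        exact_mod_cast this
      have h6 := hL.nonneg tt
      rw [hf]
      rw [h3] at h2
      nlinarith
    have hfQ : tt ^ J * f * (tt ^ J)⁻¹ ∈ Q := by
      refine ⟨by rw [sl_conj, hfs], fun j => ?_⟩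
      have e : tt ^ j * (tt ^ J * f * (tt ^ J)⁻¹) * (tt ^ j)⁻¹ =
          tt ^ (j + J) * f * (tt ^ (j + J))⁻¹ := by rw [pow_add]; group
      rw [e]
      have h2 := hcontr f hfs (j + J)
      have h3 := hJ (j + J) (by omega)
      have hpos : 0 ≤ L (tt ^ (j + J)) := hL.nonneg _
      have h4 : max 0 (L f - 2 * L (tt ^ (j + J))) = 0 := max_eq_left (by linarith)
      rw [h4] at h2
      linarith
    have hfK : f ∈ KK ((M + J : ℕ) : ℤ) := by
      apply mem_KK_of_conj (j := J)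
      have e : ((M + J : ℕ) : ℤ) - J = M := by push_cast; ring
      rw [e]
      exact hM hfQ
    have h2 := wl_KK hfK
    have h3 : y = f * tt ^ (sl y) := by
      rw [hf, mul_assoc, ← zpow_add]; simp
    have h4 : wl XX (tt ^ (sl y)) ≤ P := by
      have h5 : ∀ n : ℕ, wl XX (tt ^ n) ≤ n := by
        intro n
        have h6 := wl_le_dd (tt ^ n)
        induction n with
        | zero => simp [wl_one]
        | succ n ih =>
          rw [pow_succ]
          have := wl_mul XX_top (tt ^ n) tt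
          have ht : wl XX tt ≤ 1 := wl_gen (Or.inr rfl)
          have := ih (wl_le_dd _)
          omega
      rcases Int.natAbs_eq (sl y) with h6 | h6
      · rw [h6, zpow_natCast]
        have := h5 (sl y).natAbs
        have := abs_le.1 hPy
        omega
      · rw [h6, zpow_neg, zpow_natCast, wl_inv XX_top]
        have := h5 (sl y).natAbs
        have := abs_le.1 hPy
        omega
    have h5 := wl_mul XX_top f (tt ^ (sl y))
    rw [← h3] at h5
    omega
  · -- the action is lineal: contradiction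
    exfalso
    have hbd : ∀ k : GG, sl k = 0 → L k ≤ Cst := by
      intro k hk
      obtain ⟨M, hM⟩ := exists_KK hk
      have := (hall M hM).2 0
      simpa using this
    have hse : ∀ a b : GG, (0 < sl a ∧ 0 < sl b) ∨ (sl a < 0 ∧ sl b < 0) → wse Y a b := by
      intro a b hab K
      obtain ⟨J, hJ⟩ := htend (K + E + 2 * Cst)
      refine ⟨J, fun n m hn hm => ?_⟩
      have h1 : L (tt ^ ((n : ℤ) * sl a)) ≤ L (a ^ n) + Cst := by
        have h2 := hbd (tt ^ ((n : ℤ) * sl a) * (a ^ n)⁻¹) (by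
          rw [sl_mul, sl_inv, sl_pow, sl_zpow]; ring)
        have h3 := hL.mul (tt ^ ((n : ℤ) * sl a) * (a ^ n)⁻¹) (a ^ n)
        rw [inv_mul_cancel_right] at h3
        linarith
      have h1' : L (tt ^ ((m : ℤ) * sl b)) ≤ L (b ^ m) + Cst := by
        have h2 := hbd (tt ^ ((m : ℤ) * sl b) * (b ^ m)⁻¹) (by
          rw [sl_mul, sl_inv, sl_pow, sl_zpow]; ring)
        have h3 := hL.mul (tt ^ ((m : ℤ) * sl b) * (b ^ m)⁻¹) (b ^ m)
        rw [inv_mul_cancel_right] at h3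
        linarith
      have h2 : L ((a ^ n)⁻¹ * b ^ m) ≤ L (tt ^ ((m : ℤ) * sl b - n * sl a)) + Cst := by
        set w : ℤ := (m : ℤ) * sl b - n * sl a with hw
        have h3 := hbd ((a ^ n)⁻¹ * b ^ m * (tt ^ w)⁻¹) (by
          rw [sl_mul, sl_mul, sl_inv, sl_inv, sl_pow, sl_pow, sl_zpow]; ring)
        have h4 := hL.mul ((a ^ n)⁻¹ * b ^ m * (tt ^ w)⁻¹) (tt ^ w)
        rw [inv_mul_cancel_right] at h4
        linarith
      rw [L_zpow hL] at h1 h1' h2
      set A := ((n : ℤ) * sl a).natAbs with hA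
      set B := ((m : ℤ) * sl b).natAbs with hB
      set D := ((m : ℤ) * sl b - n * sl a).natAbs with hD
      have hAn : n ≤ A := by
        rw [hA, Int.natAbs_mul]
        have : 1 ≤ (sl a).natAbs := by omega
        have e : ((n : ℤ)).natAbs = n := rfl
        rw [e]
        nlinarith
      have hBm : m ≤ B := by
        rw [hB, Int.natAbs_mul]
        have : 1 ≤ (sl b).natAbs := by omega
        have e : ((m : ℤ)).natAbs = m := rfl
        rw [e]
        nlinarith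
      have hsign : (0 ≤ (n : ℤ) * sl a ∧ 0 ≤ (m : ℤ) * sl b) ∨
          ((n : ℤ) * sl a ≤ 0 ∧ (m : ℤ) * sl b ≤ 0) := by
        rcases hab with ⟨p1, p2⟩ | ⟨p1, p2⟩
        · left; constructor <;> positivity
        · right; constructor <;> nlinarith
      have hABD : (A + D = B) ∨ (B + D = A) := by
        rw [hA, hB, hD]
        omega
      have hgp : wgp Y (a ^ n) (b ^ m) = (L (a ^ n) + L (b ^ m) - L ((a ^ n)⁻¹ * b ^ m)) / 2 := rfl
      rw [hgp]
      rcases hABD with h3 | h3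
      · have h4 := hnear A D
        rw [h3] at h4
        have h5 := hJ A (by omega)
        linarith
      · have h4 := hnear B D
        rw [h3] at h4
        have h5 := hJ B (by omega)
        linarith
    apply hne
    have i1 := sl_inv g
    have i2 := sl_inv h
    rcases lt_or_gt_of_ne hg0 with h1 | h1 <;> rcases lt_or_gt_of_ne hh0 with h2 | h2
    · left
      exact ⟨hse _ _ (Or.inr ⟨h1, h2⟩), hse _ _ (Or.inl ⟨by omega, by omega⟩)⟩
    · right
      exact ⟨hse _ _ (Or.inr ⟨h1, by omega⟩), hse _ _ (Or.inl ⟨by omega, h2⟩)⟩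
    · right
      exact ⟨hse _ _ (Or.inl ⟨h1, by omega⟩), hse _ _ (Or.inr ⟨by omega, h2⟩)⟩
    · left
      exact ⟨hse _ _ (Or.inl ⟨h1, h2⟩), hse _ _ (Or.inr ⟨by omega, by omega⟩)⟩

end Pool.Agent.Y35.QP
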