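import Mathlib

/-!
# Every length function on the symmetric group of a countable set is bounded
-/

set_option autoImplicit false

namespace Pool.Agent.Y35.QP

open Equiv

/-- A length function on a group. -/
structure IsLen {G : Type*} [Group G] (f : G → ℝ) : Prop where
  nonneg : ∀ g, 0 ≤ f g
  mul : ∀ g h, f (g * h) ≤ f g + f h
  inv : ∀ g, f g⁻¹ = f g

lemma IsLen.pow {G : Type*} [Group G] {f : G → ℝ} (hf : IsLen f) (g : G) (n : ℕ) :
    f (g ^ n) ≤ f 1 + n * f g := by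
  induction n with
  | zero => simp
  | succ n ih =>
    rw [pow_succ]
    have := hf.mul (g ^ n) g
    push_cast
    linarith

lemma IsLen.comp {G H : Type*} [Group G] [Group H] {f : G → ℝ} (hf : IsLen f) (φ : H →* G) :
    IsLen (fun h => f (φ h)) where
  nonneg _ := hf.nonneg _
  mul g h := by simpa using hf.mul (φ g) (φ h)
  inv g := by simpa using hf.inv (φ g)

abbrev Om := ℤ × ℤ × ℕ

/-- fiberwise permutation -/
def fib (τ : ℤ → ℤ → Perm ℕ) : Perm Om where
  toFun p := (p.1, p.2.1, τ p.1 p.2.1 p.2.2)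
  invFun p := (p.1, p.2.1, (τ p.1 p.2.1)⁻¹ p.2.2)
  left_inv p := by simp
  right_inv p := by simp

/-- shift of the first coordinate -/
def sh : Perm Om where
  toFun p := (p.1 + 1, p.2.1, p.2.2)
  invFun p := (p.1 - 1, p.2.1, p.2.2)
  left_inv p := by simp
  right_inv p := by simp

/-- shift of the second coordinate over first coordinate zero -/
def bb : Perm Om where
  toFun p := (p.1, (if p.1 = 0 then p.2.1 + 1 else p.2.1), p.2.2)
  invFun p := (p.1, (if p.1 = 0 then p.2.1 - 1 else p.2.1), p.2.2)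
  left_inv p := by
    obtain ⟨i, k, x⟩ := p
    by_cases h : i = 0 <;> simp [h]
  right_inv p := by
    obtain ⟨i, k, x⟩ := p
    by_cases h : i = 0 <;> simp [h]

lemma fib_apply (τ : ℤ → ℤ → Perm ℕ) (i k : ℤ) (x : ℕ) : fib τ (i, k, x) = (i, k, τ i k x) := rfl

lemma fib_inv (τ : ℤ → ℤ → Perm ℕ) : (fib τ)⁻¹ = fib (fun i k => (τ i k)⁻¹) := rfl

lemma sh_apply (i k : ℤ) (x : ℕ) : sh (i, k, x) = (i + 1, k, x) := rfl

lemma sh_inv_apply (i k : ℤ) (x : ℕ) : sh⁻¹ (i, k, x) = (i - 1, k, x) := rfl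

lemma bb_apply (i k : ℤ) (x : ℕ) : bb (i, k, x) = (i, (if i = 0 then k + 1 else k), x) := rfl

lemma bb_inv_apply (i k : ℤ) (x : ℕ) : bb⁻¹ (i, k, x) = (i, (if i = 0 then k - 1 else k), x) := rfl

lemma sh_pow_apply (n : ℕ) (i k : ℤ) (x : ℕ) : (sh ^ n) (i, k, x) = (i + n, k, x) := by
  induction n generalizing i with
  | zero => simp
  | succ n ih =>
    rw [pow_succ, Perm.mul_apply, sh_apply, ih]
    push_cast
    congr 1
    ring

lemma sh_pow_inv_apply (n : ℕ) (i k : ℤ) (x : ℕ) : (sh ^ n)⁻¹ (i, k, x) = (i - n, k, x) := by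
  rw [Perm.inv_eq_iff_eq, sh_pow_apply]
  simp

/-- `σ` at the position `(0,0)`. -/
def at0 (σ : Perm ℕ) : Perm Om := fib (fun i k => if i = 0 ∧ k = 0 then σ else 1)

lemma conj_fib (τ : ℤ → ℤ → Perm ℕ) (n : ℕ) :
    (sh ^ n)⁻¹ * fib τ * sh ^ n = fib (fun i k => τ (i + n) k) := by
  ext1 p
  obtain ⟨i, k, x⟩ := p
  rw [Perm.mul_apply, Perm.mul_apply, sh_pow_apply, fib_apply, sh_pow_inv_apply, fib_apply]
  simp

lemma comm_eq (σ : ℕ → Perm ℕ) (n : ℕ) :
    ((sh ^ n)⁻¹ * fib (fun i k => if 0 ≤ i ∧ 0 ≤ k then σ i.toNat else 1) * sh ^ n) * bb *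
      ((sh ^ n)⁻¹ * fib (fun i k => if 0 ≤ i ∧ 0 ≤ k then σ i.toNat else 1) * sh ^ n)⁻¹ * bb⁻¹
      = at0 (σ n) := by
  rw [conj_fib, fib_inv]
  ext1 p
  obtain ⟨i, k, x⟩ := p
  rw [Perm.mul_apply, Perm.mul_apply, Perm.mul_apply, bb_inv_apply, fib_apply, bb_apply, fib_apply,
    at0, fib_apply]
  by_cases hi : i = 0
  · subst hi
    simp only [if_true, true_and, zero_add, Int.toNat_natCast, Nat.cast_nonneg]
    by_cases hk : k = 0
    · subst hk
      simp
    · by_cases hk1 : 1 ≤ k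
      · have hk2 : 0 ≤ k := by omega
        simp [hk, hk1, hk2]
      · have hk2 : ¬ 0 ≤ k := by omega
        simp [hk, hk1, hk2]
  · simp [hi]

lemma bdd_at0 {f : Perm Om → ℝ} (hf : IsLen f) : ∃ C, ∀ σ : Perm ℕ, f (at0 σ) ≤ C := by
  by_contra hcon
  push Not at hcon
  have h : ∀ n : ℕ, ∃ σ : Perm ℕ, ((n : ℝ) * n) < f (at0 σ) := fun n => hcon _
  choose σ hσ using h
  set A := fib (fun i k => if 0 ≤ i ∧ 0 ≤ k then σ i.toNat else 1) with hA
  have key : ∀ n : ℕ, f (at0 (σ n)) ≤ 2 * (f A + 2 * (f 1 + n * f sh)) + 2 * f bb := by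
    intro n
    rw [← comm_eq σ n]
    rw [← hA]
    set s := sh ^ n with hs
    have h1 : f s ≤ f 1 + n * f sh := hf.pow sh n
    have h2 : f (s⁻¹ * A * s) ≤ f A + 2 * f s := by
      have := hf.mul (s⁻¹ * A) s
      have := hf.mul s⁻¹ A
      have := hf.inv s
      linarith
    have h3 := hf.mul ((s⁻¹ * A * s) * bb * (s⁻¹ * A * s)⁻¹) bb⁻¹
    have h4 := hf.mul ((s⁻¹ * A * s) * bb) (s⁻¹ * A * s)⁻¹
    have h5 := hf.mul (s⁻¹ * A * s) bb
    have h6 := hf.inv (s⁻¹ * A * s)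
    have h7 := hf.inv bb
    linarith
  obtain ⟨n, hn⟩ := exists_nat_gt (2 * f A + 4 * f 1 + 4 * f sh + 2 * f bb + 1)
  have h1 := key n
  have h2 := hσ n
  have p1 := hf.nonneg A
  have p2 := hf.nonneg 1
  have p3 := hf.nonneg sh
  have p4 := hf.nonneg bb
  have hn1 : (1 : ℝ) ≤ n := by linarith
  nlinarith

/-- `f` is bounded on the permutations supported on `P` if `P` and its complement are infinite. -/
lemma bdd_supported {Ω : Type*} [Countable Ω] {f : Perm Ω → ℝ} (hf : IsLen f) (P : Set Ω)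
    (hP : P.Infinite) (hPc : Pᶜ.Infinite) :
    ∃ C, ∀ g : Perm Ω, (∀ x, x ∉ P → g x = x) → f g ≤ C := by
  classical
  let Z : Set Om := {p | p.1 = 0 ∧ p.2.1 = 0}
  have hZinf : Z.Infinite := by
    refine Set.infinite_of_injective_forall_mem (f := fun n : ℕ => ((0, 0, n) : Om)) ?_ ?_
    · intro a b h
      simpa using h
    · intro n
      exact ⟨rfl, rfl⟩
  have hZc : Zᶜ.Infinite := by
    refine Set.infinite_of_injective_forall_mem (f := fun n : ℕ => ((1, 0, n) : Om)) ?_ ?_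
    · intro a b h
      simpa using h
    · intro n h
      have := h.1
      simp at this
  have i1 : Infinite P := hP.to_subtype
  have i2 : Infinite ↥(Pᶜ) := hPc.to_subtype
  have i3 : Infinite Z := hZinf.to_subtype
  have i4 : Infinite ↥(Zᶜ) := hZc.to_subtype
  obtain ⟨e1⟩ : Nonempty (P ≃ Z) := nonempty_equiv_of_countable
  obtain ⟨e2⟩ : Nonempty (↥(Pᶜ) ≃ ↥(Zᶜ)) := nonempty_equiv_of_countable
  let e : Ω ≃ Om := (Equiv.Set.sumCompl P).symm.trans ((Equiv.sumCongr e1 e2).trans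
    (Equiv.Set.sumCompl Z))
  have he : ∀ x, x ∈ P → e x ∈ Z := by
    intro x hx
    have : e x = (e1 ⟨x, hx⟩ : Om) := by
      simp only [e, Equiv.trans_apply]
      rw [Equiv.Set.sumCompl_symm_apply_of_mem hx]
      rfl
    rw [this]
    exact (e1 ⟨x, hx⟩).2
  have he' : ∀ x, x ∉ P → e x ∉ Z := by
    intro x hx
    have : e x = (e2 ⟨x, hx⟩ : Om) := by
      simp only [e, Equiv.trans_apply]
      rw [Equiv.Set.sumCompl_symm_apply_of_notMem hx]
      rfl
    rw [this]
    exact (e2 ⟨x, hx⟩).2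
  have hf' : IsLen (fun g : Perm Om => f (e.symm.permCongr g)) :=
    hf.comp (G := Perm Ω) (H := Perm Om) (e.symm.permCongrHom.toMonoidHom)
  obtain ⟨C, hC⟩ := bdd_at0 hf'
  refine ⟨C, fun g hg => ?_⟩
  -- the permutation of `ℕ`
  have hgP : ∀ x, x ∈ P ↔ g x ∈ P := by
    intro x
    by_cases hx : x ∈ P
    · refine iff_of_true hx ?_
      by_contra h
      have h1 := hg _ h
      have := g.injective h1
      rw [this] at h
      exact h hx
    · refine iff_of_false hx ?_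
      rwa [hg x hx]
  have hmem : ∀ n : ℕ, e.symm ((0, 0, n) : Om) ∈ P := by
    intro n
    by_contra h
    have := he' _ h
    rw [Equiv.apply_symm_apply] at this
    exact this ⟨rfl, rfl⟩
  have hform : ∀ p ∈ Z, p = ((0, 0, p.2.2) : Om) := by
    rintro ⟨i, k, x⟩ ⟨h1, h2⟩
    simp only at h1 h2
    subst h1 h2
    rfl
  have hZ1 : ∀ n : ℕ, e (g (e.symm ((0, 0, n) : Om))) = (0, 0, (e (g (e.symm (0, 0, n)))).2.2) :=
    fun n => hform _ (he _ ((hgP _).1 (hmem n)))
  have hgP' : ∀ x, x ∈ P ↔ g⁻¹ x ∈ P := by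
    intro x
    have := hgP (g⁻¹ x)
    have h2 : g (g⁻¹ x) = x := by simp
    rw [h2] at this
    exact this.symm
  have hZ2 : ∀ n : ℕ, e (g⁻¹ (e.symm ((0, 0, n) : Om))) =
      (0, 0, (e (g⁻¹ (e.symm (0, 0, n)))).2.2) :=
    fun n => hform _ (he _ ((hgP' _).1 (hmem n)))
  let σ : Perm ℕ :=
    { toFun := fun n => (e (g (e.symm (0, 0, n)))).2.2
      invFun := fun n => (e (g⁻¹ (e.symm (0, 0, n)))).2.2
      left_inv := fun n => by
        have h := hZ1 n
        simp only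
        rw [← h]
        simp
      right_inv := fun n => by
        have h := hZ2 n
        simp only
        rw [← h]
        simp }
  have hEq : e.symm.permCongr (at0 σ) = g := by
    ext1 x
    rw [Equiv.permCongr_apply, Equiv.symm_symm]
    by_cases hx : x ∈ P
    · have h1 := hform _ (he x hx)
      rw [h1, at0, fib_apply]
      simp only [and_self, if_true]
      show e.symm (0, 0, (e (g (e.symm (0, 0, (e x).2.2)))).2.2) = g x
      rw [← hZ1, ← h1]
      simp
    · have h1 := he' x hx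
      rw [hg x hx]
      have h2 : at0 σ (e x) = e x := by
        rcases hex : e x with ⟨i, k, y⟩
        rw [hex] at h1
        rw [at0, fib_apply]
        have h3 : ¬ (i = 0 ∧ k = 0) := h1
        rw [if_neg h3]
        rfl
      rw [h2]
      simp
  have := hC σ
  simp only [hEq] at this
  exact this

end Pool.Agent.Y35.QP
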