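import Pool.Agent.Y35.QP.Bounded

/-!
# Every length function on the symmetric group of a countable set is bounded, part 2
-/

set_option autoImplicit false

namespace Pool.Agent.Y35.QP

open Equiv

variable {Ω : Type*} [Countable Ω]

lemma exists_fib_equiv {γ : Type*} (κ : Ω → γ) (h : ∀ c, {x | κ x = c}.Infinite) :
    ∃ E : Ω ≃ γ × ℕ, ∀ x, (E x).1 = κ x := by
  have h' : ∀ c, Nonempty ({x // κ x = c} ≃ ℕ) := by
    intro c
    have : Infinite {x // κ x = c} := (h c).to_subtype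
    exact nonempty_equiv_of_countable
  have e : ∀ c, {x // κ x = c} ≃ ℕ := fun c => (h' c).some
  refine ⟨(Equiv.sigmaFiberEquiv κ).symm.trans ((Equiv.sigmaCongrRight e).trans
    (Equiv.sigmaEquivProd γ ℕ)), fun x => ?_⟩
  rfl

lemma exists_split {F : Set Ω} (hF : F.Infinite) : ∃ t, t ⊆ F ∧ t.Infinite ∧ (F \ t).Infinite := by
  obtain ⟨t, u, h1, h2, h3⟩ := hF.exists_union_disjoint_cardinal_eq_of_infinite
  have ht : t.Infinite := by
    by_contra h
    rw [Set.not_infinite] at h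
    have hu : u.Finite := by
      have : Cardinal.mk u < Cardinal.aleph0 := by
        rw [← h3]
        exact Cardinal.lt_aleph0_iff_set_finite.2 h
      exact Cardinal.lt_aleph0_iff_set_finite.1 this
    exact hF (h1 ▸ h.union hu)
  have hu : u.Infinite := by
    by_contra h
    rw [Set.not_infinite] at h
    have ht' : t.Finite := by
      have : Cardinal.mk t < Cardinal.aleph0 := by
        rw [h3]
        exact Cardinal.lt_aleph0_iff_set_finite.2 h
      exact Cardinal.lt_aleph0_iff_set_finite.1 this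
    exact ht ht'
  refine ⟨t, h1 ▸ Set.subset_union_left, ht, hu.mono ?_⟩
  intro x hx
  refine ⟨h1 ▸ Or.inr hx, fun hxt => ?_⟩
  exact Set.disjoint_left.1 h2 hxt hx

lemma exists_split_cls {γ : Type*} [Finite γ] (κ : Ω → γ) :
    ∃ D : Set Ω, ∀ X : Set γ, (κ ⁻¹' X).Infinite →
      (D ∩ κ ⁻¹' X).Infinite ∧ (Dᶜ ∩ κ ⁻¹' X).Infinite := by
  classical
  have h : ∀ c, ∃ t : Set Ω, (κ ⁻¹' {c}).Infinite →
      t ⊆ κ ⁻¹' {c} ∧ t.Infinite ∧ ((κ ⁻¹' {c}) \ t).Infinite := by
    intro c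
    by_cases hc : (κ ⁻¹' {c}).Infinite
    · obtain ⟨t, ht⟩ := exists_split hc
      exact ⟨t, fun _ => ht⟩
    · exact ⟨∅, fun h => absurd h hc⟩
  choose t ht using h
  refine ⟨{y | y ∈ t (κ y)}, fun X hX => ?_⟩
  have hex : ∃ c ∈ X, (κ ⁻¹' {c}).Infinite := by
    by_contra hcon
    push Not at hcon
    apply hX
    have : κ ⁻¹' X = ⋃ c ∈ X, κ ⁻¹' {c} := by
      ext y
      simp
    rw [this]
    refine Set.Finite.biUnion (Set.toFinite X) (fun c hc => ?_)
    exact hcon c hc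
  obtain ⟨c, hcX, hc⟩ := hex
  obtain ⟨h1, h2, h3⟩ := ht c hc
  constructor
  · refine h2.mono ?_
    intro y hy
    have hyc : κ y = c := h1 hy
    refine ⟨?_, ?_⟩
    · show y ∈ t (κ y)
      rw [hyc]; exact hy
    · show κ y ∈ X
      rw [hyc]; exact hcX
  · refine h3.mono ?_
    intro y hy
    have hyc : κ y = c := hy.1
    refine ⟨?_, ?_⟩
    · show ¬ y ∈ t (κ y)
      rw [hyc]; exact hy.2
    · show κ y ∈ X
      rw [hyc]; exact hcX

open Classical in
/-- class of a point -/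
noncomputable def cls (A : Set Ω) (g : Perm Ω) (x : Ω) : Bool × Bool :=
  (decide (x ∈ A), decide (g x ∈ A))

/-- `g` is generic -/
def Gen (A : Set Ω) (g : Perm Ω) : Prop := ∀ c, {x | cls A g x = c}.Infinite

lemma infinite_preimage (h : Perm Ω) {Y : Set Ω} (hY : Y.Infinite) : {x | h x ∈ Y}.Infinite := by
  have : {x | h x ∈ Y} = h.symm '' Y := by
    ext x
    constructor
    · intro hx
      exact ⟨h x, hx, by simp⟩
    · rintro ⟨y, hy, rfl⟩
      show h (h.symm y) ∈ Y
      rwa [Equiv.apply_symm_apply]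
  rw [this]
  exact hY.image h.symm.injective.injOn

lemma bdd_stab {f : Perm Ω → ℝ} (hf : IsLen f) (A : Set Ω)
    (hA : A.Infinite) (hAc : Aᶜ.Infinite) :
    ∃ C, ∀ w : Perm Ω, (∀ x, x ∈ A ↔ w x ∈ A) → f w ≤ C := by
  classical
  obtain ⟨C1, h1⟩ := bdd_supported hf A hA hAc
  obtain ⟨C2, h2⟩ := bdd_supported hf Aᶜ hAc (by rwa [compl_compl])
  refine ⟨C1 + C2, fun w hw => ?_⟩
  let wA : Perm Ω := Equiv.Perm.ofSubtype (w.subtypePerm (p := fun x => x ∈ A)
    (fun x => (hw x).symm))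
  have hwA1 : ∀ x, x ∉ A → wA x = x := fun x hx => Equiv.Perm.ofSubtype_apply_of_not_mem _ hx
  have hwA2 : ∀ x, x ∈ A → wA x = w x := fun x hx => by
    simp only [wA]
    rw [Equiv.Perm.ofSubtype_apply_of_mem _ hx]
    rfl
  have h3 : f (wA⁻¹ * w) ≤ C2 := by
    apply h2
    intro x hx
    have hx' : x ∈ A := by
      by_contra h
      exact hx h
    rw [Perm.mul_apply, Perm.inv_eq_iff_eq]
    exact (hwA2 x hx').symm
  have h4 : f wA ≤ C1 := h1 _ hwA1
  have h5 := hf.mul wA (wA⁻¹ * w)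
  have h6 : wA * (wA⁻¹ * w) = w := by group
  rw [h6] at h5
  linarith

lemma gen_bdd {f : Perm Ω → ℝ} (hf : IsLen f) (A : Set Ω)
    (hA : A.Infinite) (hAc : Aᶜ.Infinite) :
    ∃ C, ∀ g g' : Perm Ω, Gen A g → Gen A g' → f g' ≤ f g + C := by
  classical
  obtain ⟨C, hC⟩ := bdd_stab hf A hA hAc
  refine ⟨2 * C, fun g g' hg hg' => ?_⟩
  obtain ⟨E, hE⟩ := exists_fib_equiv (cls A g) hg
  obtain ⟨E', hE'⟩ := exists_fib_equiv (cls A g') hg'
  let v : Perm Ω := E.trans E'.symm
  have hv : ∀ x, cls A g' (v x) = cls A g x := by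
    intro x
    rw [← hE', ← hE]
    simp [v]
  have hv1 : ∀ x, x ∈ A ↔ v x ∈ A := by
    intro x
    have := congrArg Prod.fst (hv x)
    simp only [cls] at this
    have := (decide_eq_decide.1 this)
    exact this.symm
  have hv2 : ∀ x, g x ∈ A ↔ g' (v x) ∈ A := by
    intro x
    have := congrArg Prod.snd (hv x)
    simp only [cls] at this
    have := (decide_eq_decide.1 this)
    exact this.symm
  have hw : ∀ y, y ∈ A ↔ (g' * v * g⁻¹) y ∈ A := by
    intro y
    have := hv2 (g⁻¹ y)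
    have e : g (g⁻¹ y) = y := by simp
    rw [e] at this
    rw [Perm.mul_apply, Perm.mul_apply]
    exact this
  have h1 := hC _ hw
  have h2 := hC _ hv1
  have h3 : g' = (g' * v * g⁻¹) * g * v⁻¹ := by group
  have h4 := hf.mul ((g' * v * g⁻¹) * g) v⁻¹
  have h5 := hf.mul (g' * v * g⁻¹) g
  have h6 := hf.inv v
  rw [← h3] at h4
  linarith

lemma exists_gen (A : Set Ω) (hA : A.Infinite) (hAc : Aᶜ.Infinite) (g : Perm Ω) :
    ∃ h : Perm Ω, Gen A h ∧ Gen A (g * h) := by
  classical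
  obtain ⟨D, hD⟩ := exists_split_cls (cls A g)
  have hsA : ∀ b : Bool, {y | decide (y ∈ A) = b}.Infinite := by
    intro b
    cases b
    · refine hAc.mono ?_
      intro y hy
      simpa using hy
    · refine hA.mono ?_
      intro y hy
      simpa using hy
  have hD1 : ∀ a b : Bool, {y | decide (y ∈ D) = a ∧ decide (y ∈ A) = b}.Infinite := by
    intro a b
    have h1 := hD {c | c.1 = b} (hsA b)
    cases a
    · refine h1.2.mono ?_
      rintro y ⟨hy1, hy2⟩
      exact ⟨by simpa using hy1, hy2⟩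
    · refine h1.1.mono ?_
      rintro y ⟨hy1, hy2⟩
      exact ⟨by simpa using hy1, hy2⟩
  have hD2 : ∀ a b : Bool, {y | decide (y ∈ D) = a ∧ decide (g y ∈ A) = b}.Infinite := by
    intro a b
    have h1 := hD {c | c.2 = b} (infinite_preimage g (hsA b))
    cases a
    · refine h1.2.mono ?_
      rintro y ⟨hy1, hy2⟩
      exact ⟨by simpa using hy1, hy2⟩
    · refine h1.1.mono ?_
      rintro y ⟨hy1, hy2⟩
      exact ⟨by simpa using hy1, hy2⟩
  have hsD : ∀ b : Bool, {y | decide (y ∈ D) = b}.Infinite := by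
    intro b
    exact (hD1 b true).mono (fun y hy => hy.1)
  obtain ⟨E1, hE1⟩ := exists_fib_equiv (fun y => decide (y ∈ A)) hsA
  obtain ⟨E2, hE2⟩ := exists_fib_equiv (fun y => decide (y ∈ D)) hsD
  let h : Perm Ω := E1.trans E2.symm
  have hh : ∀ x, decide (h x ∈ D) = decide (x ∈ A) := by
    intro x
    rw [← hE1, ← hE2]
    simp [h]
  refine ⟨h, ?_, ?_⟩
  · rintro ⟨a, b⟩
    have := infinite_preimage h (hD1 a b)
    refine this.mono ?_
    rintro x ⟨h1, h2⟩
    simp only [cls, Set.mem_ofPred_eq, Prod.mk.injEq]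
    rw [hh] at h1
    exact ⟨h1, h2⟩
  · rintro ⟨a, b⟩
    have := infinite_preimage h (hD2 a b)
    refine this.mono ?_
    rintro x ⟨h1, h2⟩
    simp only [cls, Set.mem_ofPred_eq, Prod.mk.injEq]
    rw [hh] at h1
    exact ⟨h1, h2⟩

/-- Every length function on the symmetric group of a countably infinite set is bounded. -/
theorem bounded [Infinite Ω] {f : Perm Ω → ℝ} (hf : IsLen f) : ∃ C, ∀ g, f g ≤ C := by
  classical
  have hu : (Set.univ : Set Ω).Infinite := Set.infinite_univ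
  obtain ⟨A, -, hA, hAc⟩ := exists_split hu
  have hAc' : Aᶜ.Infinite := by
    rwa [← Set.compl_eq_univ_sdiff] at hAc
  obtain ⟨C, hC⟩ := gen_bdd hf A hA hAc'
  obtain ⟨g0, hg0, -⟩ := exists_gen A hA hAc' 1
  refine ⟨2 * (f g0 + C), fun g => ?_⟩
  obtain ⟨h, h1, h2⟩ := exists_gen A hA hAc' g
  have h3 := hC g0 h hg0 h1
  have h4 := hC g0 (g * h) hg0 h2
  have h5 := hf.mul (g * h) h⁻¹
  have h6 := hf.inv h
  have h7 : g * h * h⁻¹ = g := by group
  rw [h7] at h5
  linarith

end Pool.Agent.Y35.QP
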