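import Pool.Agent.Y35.QP.Bounded2

/-!
# The group of permutations of `ℤ` which are translations near `-∞`
-/

set_option autoImplicit false

namespace Pool.Agent.Y35.QP

open Equiv

/-- The group of permutations of `ℤ` which are translations near `-∞`. -/
def EvT : Subgroup (Perm ℤ) where
  carrier := {g | ∃ n m : ℤ, ∀ x, x < m → g x = x + n}
  one_mem' := ⟨0, 0, fun x _ => by simp⟩
  mul_mem' := by
    rintro g h ⟨n, m, hg⟩ ⟨n', m', hh⟩
    refine ⟨n + n', min m' (m - n'), fun x hx => ?_⟩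
    rw [Perm.mul_apply, hh x (lt_of_lt_of_le hx (min_le_left _ _)), hg]
    · ring
    · have := lt_of_lt_of_le hx (min_le_right _ _)
      omega
  inv_mem' := by
    rintro g ⟨n, m, hg⟩
    refine ⟨-n, m + n, fun x hx => ?_⟩
    rw [Perm.inv_eq_iff_eq, hg]
    · ring
    · omega

/-- The group -/
abbrev GG : Type := EvT

/-- the translation length near `-∞` -/
noncomputable def sl (g : GG) : ℤ := g.2.choose

lemma sl_spec (g : GG) : ∃ m : ℤ, ∀ x, x < m → g.1 x = x + sl g := g.2.choose_spec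

lemma sl_eq {g : GG} {n m : ℤ} (h : ∀ x, x < m → g.1 x = x + n) : sl g = n := by
  obtain ⟨m', h'⟩ := sl_spec g
  have h1 := h (min m m' - 1) (by have := min_le_left m m'; omega)
  have h2 := h' (min m m' - 1) (by have := min_le_right m m'; omega)
  omega

lemma sl_one : sl 1 = 0 := sl_eq (m := 0) (fun x _ => by simp)

lemma sl_mul (g h : GG) : sl (g * h) = sl g + sl h := by
  obtain ⟨m, hg⟩ := sl_spec g
  obtain ⟨m', hh⟩ := sl_spec h
  refine sl_eq (m := min m' (m - sl h)) (fun x hx => ?_)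
  have h1 : (g * h).1 x = g.1 (h.1 x) := rfl
  rw [h1, hh x (lt_of_lt_of_le hx (min_le_left _ _)), hg]
  · ring
  · have := lt_of_lt_of_le hx (min_le_right _ _)
    omega

lemma sl_inv (g : GG) : sl g⁻¹ = - sl g := by
  have := sl_mul g g⁻¹
  rw [mul_inv_cancel, sl_one] at this
  omega

lemma sl_pow (g : GG) (k : ℕ) : sl (g ^ k) = k * sl g := by
  induction k with
  | zero => simp [sl_one]
  | succ k ih =>
    rw [pow_succ, sl_mul, ih]
    push_cast
    ring

/-- The translation by one. -/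
def tt : GG := ⟨Equiv.addRight (1 : ℤ), 1, 0, fun x _ => rfl⟩

lemma tt_apply (x : ℤ) : tt.1 x = x + 1 := rfl

lemma tt_pow_apply (k : ℕ) (x : ℤ) : (tt ^ k).1 x = x + k := by
  induction k generalizing x with
  | zero => simp
  | succ k ih =>
    have : (tt ^ (k + 1)).1 x = (tt ^ k).1 (tt.1 x) := by rw [pow_succ]; rfl
    rw [this, ih, tt_apply]
    push_cast
    ring

lemma tt_zpow_apply (k : ℤ) (x : ℤ) : (tt ^ k).1 x = x + k := by
  rcases k with k | k
  · exact tt_pow_apply k x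
  · have h1 : (tt ^ (Int.negSucc k)).1 x = ((tt ^ (k + 1)).1)⁻¹ x := by
      rw [zpow_negSucc]; rfl
    rw [h1, Perm.inv_eq_iff_eq, tt_pow_apply]
    push_cast
    rw [Int.negSucc_eq]
    ring

lemma tt_pow_inv_apply (k : ℕ) (x : ℤ) : ((tt ^ k)⁻¹).1 x = x - k := by
  have : ((tt ^ k)⁻¹).1 x = ((tt ^ k).1)⁻¹ x := rfl
  rw [this, Perm.inv_eq_iff_eq, tt_pow_apply]
  ring

lemma sl_tt : sl tt = 1 := sl_eq (m := 0) (fun x _ => rfl)

lemma mul_app (g h : GG) (x : ℤ) : (g * h).1 x = g.1 (h.1 x) := rfl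

lemma inv_app (g : GG) (x : ℤ) : (g⁻¹).1 (g.1 x) = x := by
  show (g.1)⁻¹ (g.1 x) = x
  simp

lemma app_inv (g : GG) (x : ℤ) : g.1 ((g⁻¹).1 x) = x := by
  show g.1 ((g.1)⁻¹ x) = x
  simp

lemma gg_ext {g h : GG} (H : ∀ x, g.1 x = h.1 x) : g = h := Subtype.ext (Equiv.ext H)

/-- Pointwise stabiliser of the integers `< -M`. -/
def KK (M : ℤ) : Set GG := {g | ∀ x, x < -M → g.1 x = x}

lemma KK_one (M : ℤ) : (1 : GG) ∈ KK M := fun _ _ => rfl

lemma KK_mul {M : ℤ} {g h : GG} (hg : g ∈ KK M) (hh : h ∈ KK M) : g * h ∈ KK M := by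
  intro x hx
  rw [mul_app, hh x hx, hg x hx]

lemma KK_inv {M : ℤ} {g : GG} (hg : g ∈ KK M) : g⁻¹ ∈ KK M := by
  intro x hx
  have := inv_app g x
  rwa [hg x hx] at this

lemma KK_mono {M M' : ℤ} (h : M ≤ M') : KK M ⊆ KK M' := by
  intro g hg x hx
  exact hg x (by omega)

lemma KK_sl {M : ℤ} {g : GG} (hg : g ∈ KK M) : sl g = 0 :=
  sl_eq (m := -M) (fun x hx => by rw [hg x hx]; ring)

lemma exists_KK {g : GG} (hg : sl g = 0) : ∃ M : ℕ, g ∈ KK M := by
  obtain ⟨m, hm⟩ := sl_spec g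
  refine ⟨m.natAbs, fun x hx => ?_⟩
  rw [hm x (by omega), hg, add_zero]

lemma conj_apply (j : ℕ) (g : GG) (x : ℤ) :
    (tt ^ j * g * (tt ^ j)⁻¹).1 x = g.1 (x - j) + j := by
  rw [mul_app, mul_app, tt_pow_inv_apply, tt_pow_apply]

lemma conj_mem_KK {j : ℕ} {g : GG} {M : ℤ} (hg : g ∈ KK M) :
    tt ^ j * g * (tt ^ j)⁻¹ ∈ KK (M - j) := by
  intro x hx
  rw [conj_apply, hg _ (by omega)]
  ring

lemma mem_KK_of_conj {j : ℕ} {g : GG} {M : ℤ} (hg : tt ^ j * g * (tt ^ j)⁻¹ ∈ KK (M - j)) :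
    g ∈ KK M := by
  intro x hx
  have := hg (x + j) (by omega)
  rw [conj_apply] at this
  have e : x + (j : ℤ) - j = x := by ring
  rw [e] at this
  omega

/-- swaps -/
def sw (a b : ℤ) : GG := ⟨swap a b, 0, min a b, fun x hx => by
  rw [add_zero, swap_apply_of_ne_of_ne]
  · have := lt_of_lt_of_le hx (min_le_left _ _); omega
  · have := lt_of_lt_of_le hx (min_le_right _ _); omega⟩

lemma sw_KK {a b M : ℤ} (ha : -M ≤ a) (hb : -M ≤ b) : sw a b ∈ KK M := by
  intro x hx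
  exact swap_apply_of_ne_of_ne (by omega) (by omega)

lemma sw_conj (g : GG) (a b : ℤ) : g * sw a b * g⁻¹ = sw (g.1 a) (g.1 b) := by
  apply Subtype.ext
  exact (swap_apply_apply g.1 a b).symm

lemma sw_comm (a b : ℤ) : sw a b = sw b a := Subtype.ext (swap_comm a b)

lemma sw_inv (a b : ℤ) : (sw a b)⁻¹ = sw a b := Subtype.ext (swap_inv a b)

lemma sw_left (a b : ℤ) : (sw a b).1 a = b := swap_apply_left a b

lemma sw_right (a b : ℤ) : (sw a b).1 b = a := swap_apply_right a b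

lemma sw_ne {a b x : ℤ} (ha : x ≠ a) (hb : x ≠ b) : (sw a b).1 x = x :=
  swap_apply_of_ne_of_ne ha hb

/-- The homomorphism from the symmetric group of the nonnegative integers. -/
def iot : Perm {x : ℤ // 0 ≤ x} →* GG :=
  (Equiv.Perm.ofSubtype (p := fun x : ℤ => 0 ≤ x)).codRestrict EvT (fun σ =>
    ⟨0, 0, fun x hx => by
      rw [Equiv.Perm.ofSubtype_apply_of_not_mem _ (by omega), add_zero]⟩)

lemma exists_iot {g : GG} (hg : g ∈ KK 0) : ∃ σ, iot σ = g := by
  have h : ∀ x : ℤ, 0 ≤ g.1 x ↔ 0 ≤ x := by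
    intro x
    constructor
    · intro h
      by_contra hx
      have := hg x (by omega)
      omega
    · intro h
      by_contra hx
      have h1 := hg (g.1 x) (by omega)
      have := g.1.injective h1
      omega
  refine ⟨g.1.subtypePerm h, ?_⟩
  apply Subtype.ext
  show Equiv.Perm.ofSubtype (g.1.subtypePerm h) = g.1
  apply Equiv.Perm.ofSubtype_subtypePerm
  intro x hx
  by_contra hx'
  exact hx (hg x (by omega))

/-- Every length function on the group is bounded on the vertex group. -/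
theorem bdd_KK {L : GG → ℝ} (hL : IsLen L) : ∃ C, ∀ g ∈ KK 0, L g ≤ C := by
  have : Infinite {x : ℤ // 0 ≤ x} :=
    Infinite.of_injective (fun n : ℕ => (⟨(n : ℤ), Int.natCast_nonneg n⟩ : {x : ℤ // 0 ≤ x}))
      (fun a b h => by simpa using h)
  obtain ⟨C, hC⟩ := bounded (hL.comp iot)
  refine ⟨C, fun g hg => ?_⟩
  obtain ⟨σ, rfl⟩ := exists_iot hg
  exact hC σ

end Pool.Agent.Y35.QP
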