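import Pool.Agent.Y35.QP.Bounded

/-!
# Hyperbolic length functions
-/

set_option autoImplicit false

namespace Pool.Agent.Y35.QP

variable {G : Type*} [Group G]

/-- Gromov product -/
noncomputable def gp (L : G → ℝ) (a b : G) : ℝ := (L a + L b - L (a⁻¹ * b)) / 2

/-- Hyperbolic length function -/
structure HLen (L : G → ℝ) (δ : ℝ) : Prop extends IsLen L where
  one : L 1 = 0
  hyp : ∀ x y z, min (gp L x y) (gp L y z) - δ ≤ gp L x z
  dnn : 0 ≤ δ

lemma HLen.pow_le {L : G → ℝ} {δ : ℝ} (hL : HLen L δ) (g : G) (n : ℕ) : L (g ^ n) ≤ n * L g := by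
  have := hL.toIsLen.pow g n
  rw [hL.one] at this
  linarith

/-- near additivity for an element with `L(s²) > L(s) + 3δ` -/
lemma HLen.near_one {L : G → ℝ} {δ : ℝ} (hL : HLen L δ) (s : G)
    (hs : L s + 3 * δ < L (s ^ 2)) (n m : ℕ) :
    L (s ^ n) + L (s ^ m) ≤ L (s ^ (n + m)) + 2 * (L s + 2 * δ) := by
  set v : ℕ → ℝ := fun n => L (s ^ n) with hv
  have hd := hL.dnn
  have v0 : v 0 = 0 := by simp [hv, hL.one]
  have v1 : v 1 = L s := by simp [hv]
  have hv2 : v 1 + 3 * δ < v 2 := by rw [v1]; exact hs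
  have hv2' : v 2 ≤ 2 * v 1 := by
    rw [v1]
    exact_mod_cast hL.pow_le s 2
  -- Gromov products
  have gA : ∀ n m : ℕ, gp L (s ^ n)⁻¹ (s ^ m) = (v n + v m - v (n + m)) / 2 := by
    intro n m
    simp only [gp, hv, hL.inv, inv_inv, pow_add]
  have gB : ∀ n m : ℕ, gp L (s ^ n)⁻¹ (s ^ (n + m))⁻¹ = (v n + v (n + m) - v m) / 2 := by
    intro n m
    have e : ((s ^ n)⁻¹)⁻¹ * (s ^ (n + m))⁻¹ = (s ^ m)⁻¹ := by
      rw [pow_add]; group
    simp only [gp, hv, hL.inv, e]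
  have gC : ∀ n m : ℕ, gp L (s ^ (n + m)) (s ^ n) = (v (n + m) + v n - v m) / 2 := by
    intro n m
    have e : (s ^ (n + m))⁻¹ * s ^ n = (s ^ m)⁻¹ := by
      rw [add_comm, pow_add]; group
    simp only [gp, hv, e, hL.inv]
  have h1 : ∀ n : ℕ, v (n + 1) + v 1 ≤ v (n + 2) + (2 * v 1 - v 2) + 2 * δ := by
    intro n
    induction n with
    | zero => simp only [zero_add]; linarith
    | succ n ih =>
      have h := hL.hyp (s ^ 1)⁻¹ (s ^ (1 + (n + 1)))⁻¹ (s ^ 1)
      rw [gB, gA, gA] at h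
      have e1 : 1 + (n + 1) = n + 2 := by ring
      have e2 : n + 2 + 1 = n + 3 := by ring
      have e3 : n + 1 + 1 = n + 2 := by ring
      have e4 : n + 1 + 2 = n + 3 := by ring
      have e5 : 1 + 1 = 2 := by ring
      rw [e1, e2, e5] at h
      rw [e3, e4]
      rw [sub_le_iff_le_add] at h
      rcases min_le_iff.1 h with h | h
      · linarith
      · linarith
  have h2 : ∀ n m : ℕ, v (n + 1) + v (m + 2) ≤ v (n + m + 3) + (2 * v 1 - v 2) + 4 * δ := by
    intro n m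
    have h := hL.hyp (s ^ (n + 1))⁻¹ (s ^ (1 + (m + 1))) (s ^ 1)
    rw [gA, gA, gC] at h
    have e1 : 1 + (m + 1) = m + 2 := by ring
    have e2 : n + 1 + (m + 2) = n + m + 3 := by ring
    have e3 : n + 1 + 1 = n + 2 := by ring
    rw [e1, e2, e3] at h
    have h3 := h1 m
    have h4 := h1 n
    rw [sub_le_iff_le_add] at h
    rcases min_le_iff.1 h with h | h
    · linarith
    · linarith
  have hs0 : 0 ≤ v 1 := hL.nonneg _
  show v n + v m ≤ v (n + m) + 2 * (L s + 2 * δ)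
  rw [← v1]
  rcases n with _ | n
  · simp only [zero_add, v0]; linarith
  rcases m with _ | _ | m
  · simp only [add_zero, v0]; linarith
  · simp only [zero_add]
    have := h1 n
    have e : n + 1 + 1 = n + 2 := by ring
    rw [e]
    linarith
  · have := h2 n m
    have e : n + 1 + (m + 1 + 1) = n + m + 3 := by ring
    rw [e]
    have e' : m + 1 + 1 = m + 2 := by ring
    rw [e']
    linarith

/-- near additivity -/
lemma HLen.near {L : G → ℝ} {δ : ℝ} (hL : HLen L δ) (t : G) {c C : ℝ} (hc : 0 < c)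
    (ht : ∀ n : ℕ, c * n - C ≤ L (t ^ n)) :
    ∃ E, 0 ≤ E ∧ ∀ n m : ℕ, L (t ^ n) + L (t ^ m) ≤ L (t ^ (n + m)) + E := by
  have hd := hL.dnn
  have hex : ∃ k : ℕ, L (t ^ (2 ^ k)) + 3 * δ < L (t ^ (2 ^ (k + 1))) := by
    by_contra hcon
    push Not at hcon
    have h1 : ∀ k : ℕ, L (t ^ (2 ^ k)) ≤ L t + k * (3 * δ) := by
      intro k
      induction k with
      | zero => simp
      | succ k ih =>
        have := hcon k
        push_cast
        linarith
    obtain ⟨k, hk⟩ := exists_nat_gt ((L t + C + 3 * δ) / c + 1)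
    have hL0 := hL.nonneg t
    -- use `2 ^ (2 * k) ≥ k * k` type bound: take `n` with `2 ^ n ≥ n ^ 2`
    have h2 : ∀ n : ℕ, ((n : ℝ)) * n ≤ 4 * 2 ^ n := by
      intro n
      induction n using Nat.strong_induction_on with
      | _ n ih =>
        rcases n with _ | _ | _ | n
        · norm_num
        · norm_num
        · norm_num
        · have := ih (n + 2) (by omega)
          push_cast at this ⊢
          have h3 : (2 : ℝ) ^ (n + 1 + 1 + 1) = 2 * 2 ^ (n + 2) := by ring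
          rw [h3]
          have hn : (0 : ℝ) ≤ n := Nat.cast_nonneg n
          have h8 : (0:ℝ) < 2 ^ (n + 2) := by positivity
          rcases n with _ | n
          · norm_num
          · push_cast at *
            nlinarith
    obtain ⟨n, hn⟩ := exists_nat_gt (4 * (L t + C + 3 * δ + 1) / c + 4 * (3 * δ) / c + 1 + |C| * 4 / c)
    have h3 := ht (2 ^ n)
    have h4 := h1 n
    have h5 := h2 n
    push_cast at h3
    have hn0 : (0 : ℝ) ≤ n := Nat.cast_nonneg n
    have hCa := le_abs_self C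
    have hC0 := abs_nonneg C
    have h6 : c * (2 ^ n : ℝ) ≤ L t + n * (3 * δ) + C := by linarith
    have h7 : c * (n * n) ≤ 4 * (L t + n * (3 * δ) + |C|) := by nlinarith
    have e1 : 4 * (L t + C + 3 * δ + 1) / c + 4 * (3 * δ) / c + 1 + |C| * 4 / c =
      (4 * (L t + C + 3 * δ + 1) + 4 * (3 * δ) + c + |C| * 4) / c := by
      field_simp
    rw [e1, div_lt_iff₀ hc] at hn
    have hn1 : (1 : ℝ) ≤ n := by
      by_contra hlt
      have : (n : ℝ) < 1 := not_le.1 hlt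
      have hcn : (n : ℝ) * c < c := by nlinarith
      have : 4 * (L t + C + 3 * δ + 1) + 4 * (3 * δ) + |C| * 4 < 0 := by linarith
      have h9 : -|C| ≤ C := neg_abs_le C
      linarith
    have h9 : -|C| ≤ C := neg_abs_le C
    have h10 : (4 * (L t + C + 3 * δ + 1) + 4 * (3 * δ) + c + |C| * 4) * 1 ≤
      (4 * (L t + C + 3 * δ + 1) + 4 * (3 * δ) + c + |C| * 4) * n := by
      apply mul_le_mul_of_nonneg_left hn1
      linarith
    nlinarith
  obtain ⟨k, hk⟩ := hex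
  set M : ℕ := 2 ^ k with hM
  have hM0 : 0 < M := by positivity
  have hs : L (t ^ M) + 3 * δ < L ((t ^ M) ^ 2) := by
    rw [← pow_mul]
    have : M * 2 = 2 ^ (k + 1) := by rw [hM]; ring
    rw [this]
    exact hk
  have key := hL.near_one (t ^ M) hs
  have hsmall : ∀ r : ℕ, r < M → L (t ^ r) ≤ M * L t := by
    intro r hr
    have h1 := hL.pow_le t r
    have h2 : (r : ℝ) ≤ M := by exact_mod_cast hr.le
    have h3 := hL.nonneg t
    nlinarith
  have hL0 := hL.nonneg t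
  have hLM := hL.nonneg (t ^ M)
  refine ⟨2 * (L (t ^ M) + 2 * δ) + 4 * (M * L t), by positivity, fun n m => ?_⟩
  have hn := Nat.div_add_mod n M
  have hm := Nat.div_add_mod m M
  have b1 := hsmall (n % M) (Nat.mod_lt _ hM0)
  have b2 := hsmall (m % M) (Nat.mod_lt _ hM0)
  set q := n / M
  set q' := m / M
  set r := n % M
  set r' := m % M
  have k1 := key q q'
  have e1 : L (t ^ n) ≤ L ((t ^ M) ^ q) + L (t ^ r) := by
    rw [← hn, pow_add, pow_mul]
    exact hL.mul _ _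
  have e2 : L (t ^ m) ≤ L ((t ^ M) ^ q') + L (t ^ r') := by
    rw [← hm, pow_add, pow_mul]
    exact hL.mul _ _
  have e3 : L ((t ^ M) ^ (q + q')) ≤ L (t ^ (n + m)) + L (t ^ r) + L (t ^ r') := by
    have h1 : (t ^ M) ^ (q + q') = t ^ (n + m) * (t ^ r)⁻¹ * (t ^ r')⁻¹ := by
      rw [mul_assoc, ← mul_inv_rev, ← pow_add, eq_mul_inv_iff_mul_eq, ← pow_mul, ← pow_add]
      congr 1
      rw [← hn, ← hm]
      ring
    rw [h1]
    have h2 := hL.mul (t ^ (n + m) * (t ^ r)⁻¹) (t ^ r')⁻¹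
    have h3 := hL.mul (t ^ (n + m)) (t ^ r)⁻¹
    rw [hL.inv] at h2 h3
    linarith
  linarith

/-- The contraction inequality. -/
lemma HLen.contract {L : G → ℝ} {δ : ℝ} (hL : HLen L δ) (t : G) {E CK : ℝ}
    (hnear : ∀ n m : ℕ, L (t ^ n) + L (t ^ m) ≤ L (t ^ (n + m)) + E) (hE : 0 ≤ E)
    (h : G) (N0 : ℕ) (hh : ∀ N, N0 ≤ N → L (t ^ N * h * (t ^ N)⁻¹) ≤ CK) (j : ℕ) :
    L (t ^ j * h * (t ^ j)⁻¹) ≤ max 0 (L h - 2 * L (t ^ j)) + (3 * CK + 4 * δ + 2 * E) := by
  have hd := hL.dnn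
  set u : ℕ → ℝ := fun n => L (t ^ n) with hu
  set N := N0 + j with hN
  have hk := hh N (by omega)
  have hCK : 0 ≤ CK := le_trans (hL.nonneg _) hk
  set k := t ^ N * h * (t ^ N)⁻¹ with hkdef
  have e1 : t ^ N * h = k * t ^ N := by rw [hkdef]; group
  have e2 : t ^ N * h * (t ^ j)⁻¹ = k * t ^ N0 := by
    rw [e1, hN, pow_add]; group
  -- the four points, seen from `t ^ (-N)`
  have g1 : gp L (t ^ N0) (t ^ N) = (u N0 + u N - u j) / 2 := by
    have : (t ^ N0)⁻¹ * t ^ N = t ^ j := by rw [hN, pow_add]; group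
    simp only [gp, this, hu]
  have g2 : gp L (t ^ N) (t ^ N * h) = (u N + L (t ^ N * h) - L h) / 2 := by
    have : (t ^ N)⁻¹ * (t ^ N * h) = h := by group
    simp only [gp, this, hu]
  have g3 : gp L (t ^ N * h) (t ^ N * h * (t ^ j)⁻¹) =
      (L (t ^ N * h) + L (t ^ N * h * (t ^ j)⁻¹) - u j) / 2 := by
    have : (t ^ N * h)⁻¹ * (t ^ N * h * (t ^ j)⁻¹) = (t ^ j)⁻¹ := by group
    simp only [gp, this, hu, hL.inv]
  have g4 : gp L (t ^ N0) (t ^ N * h * (t ^ j)⁻¹) =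
      (u N0 + L (t ^ N * h * (t ^ j)⁻¹) - L (t ^ j * h * (t ^ j)⁻¹)) / 2 := by
    have : (t ^ N0)⁻¹ * (t ^ N * h * (t ^ j)⁻¹) = t ^ j * h * (t ^ j)⁻¹ := by
      rw [hN, pow_add]; group
    simp only [gp, this, hu]
  have H1 := hL.hyp (t ^ N0) (t ^ N) (t ^ N * h)
  have H2 := hL.hyp (t ^ N0) (t ^ N * h) (t ^ N * h * (t ^ j)⁻¹)
  rw [g1, g2] at H1
  rw [g3, g4] at H2
  have a1 : L (t ^ N * h) ≤ CK + u N := by
    rw [e1]
    have := hL.mul k (t ^ N)
    simp only [hu]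
    linarith
  have a2 : u N - CK ≤ L (t ^ N * h) := by
    have h1 := hL.mul k⁻¹ (t ^ N * h)
    have : k⁻¹ * (t ^ N * h) = t ^ N := by rw [e1]; group
    rw [this, hL.inv] at h1
    simp only [hu]
    linarith
  have a3 : L (t ^ N * h * (t ^ j)⁻¹) ≤ CK + u N0 := by
    rw [e2]
    have := hL.mul k (t ^ N0)
    simp only [hu]
    linarith
  have a4 : u N0 - CK ≤ L (t ^ N * h * (t ^ j)⁻¹) := by
    have h1 := hL.mul k⁻¹ (t ^ N * h * (t ^ j)⁻¹)
    have : k⁻¹ * (t ^ N * h * (t ^ j)⁻¹) = t ^ N0 := by rw [e2]; group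
    rw [this, hL.inv] at h1
    simp only [hu]
    linarith
  have hn : u N0 + u j ≤ u N + E := hnear N0 j
  have m0 : 0 ≤ max 0 (L h - 2 * L (t ^ j)) := le_max_left _ _
  have m1 : L h - 2 * L (t ^ j) ≤ max 0 (L h - 2 * L (t ^ j)) := le_max_right _ _
  have hX : L (t ^ N0 : G) = u N0 := rfl
  have hj : L (t ^ j) = u j := rfl
  rw [hj] at m0 m1 ⊢
  rw [sub_le_iff_le_add] at H1 H2
  rcases min_le_iff.1 H2 with h2 | h2
  · rcases min_le_iff.1 H1 with h1 | h1
    · linarith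
    · linarith
  · linarith

end Pool.Agent.Y35.QP
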