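import Pool.Agent.Y35.QP.Hyp

/-!
# Word lengths
-/

set_option autoImplicit false

namespace Pool.Agent.Y35.QP

open scoped Pointwise

variable {G : Type*} [Group G]

/-- word length -/
noncomputable def wl (S : Set G) (g : G) : ℕ := sInf {n : ℕ | g ∈ (S ∪ S⁻¹) ^ n}

/-- Gromov product of the word length -/
noncomputable def wgp (S : Set G) (a b : G) : ℝ :=
  ((wl S a : ℝ) + (wl S b : ℝ) - (wl S (a⁻¹ * b) : ℝ)) / 2

/-- loxodromic -/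
def wlox (S : Set G) (g : G) : Prop := ∃ c : ℝ, 0 < c ∧ ∀ n : ℕ, c * (n : ℝ) ≤ (wl S (g ^ n) : ℝ)

/-- same end -/
def wse (S : Set G) (a b : G) : Prop :=
  ∀ K : ℝ, ∃ N : ℕ, ∀ n m : ℕ, N ≤ n → N ≤ m → K ≤ wgp S (a ^ n) (b ^ m)

/-- quasi-parabolic -/
def wqp (S : Set G) : Prop :=
  Subgroup.closure S = ⊤ ∧
    (∃ δ : ℝ, ∀ x y z : G, min (wgp S x y) (wgp S y z) - δ ≤ wgp S x z) ∧
    (∃ g h : G, wlox S g ∧ wlox S h ∧
      ¬ ((wse S g h ∧ wse S g⁻¹ h⁻¹) ∨ (wse S g h⁻¹ ∧ wse S g⁻¹ h))) ∧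
    (∀ g h : G, wlox S g → wlox S h →
      (wse S g h ∨ wse S g h⁻¹ ∨ wse S g⁻¹ h ∨ wse S g⁻¹ h⁻¹))

lemma inv_mem_powT {S : Set G} {g : G} {n : ℕ} (h : g ∈ (S ∪ S⁻¹) ^ n) :
    g⁻¹ ∈ (S ∪ S⁻¹) ^ n := by
  have hT : (S ∪ S⁻¹)⁻¹ = S ∪ S⁻¹ := by
    rw [Set.union_inv, inv_inv, Set.union_comm]
  have : ((S ∪ S⁻¹) ^ n)⁻¹ = (S ∪ S⁻¹) ^ n := by
    rw [← inv_pow, hT]
  rw [← this]
  simpa using h

lemma exists_powT {S : Set G} (hS : Subgroup.closure S = ⊤) (g : G) :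
    ∃ n : ℕ, g ∈ (S ∪ S⁻¹) ^ n := by
  have hg : g ∈ Subgroup.closure S := by rw [hS]; trivial
  induction hg using Subgroup.closure_induction with
  | mem x hx => exact ⟨1, by rw [pow_one]; exact Or.inl hx⟩
  | one => exact ⟨0, by rw [pow_zero]; rfl⟩
  | mul x y _ _ hx hy =>
    obtain ⟨n, hn⟩ := hx
    obtain ⟨m, hm⟩ := hy
    exact ⟨n + m, by rw [pow_add]; exact Set.mul_mem_mul hn hm⟩
  | inv x _ hx =>
    obtain ⟨n, hn⟩ := hx
    exact ⟨n, inv_mem_powT hn⟩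

lemma mem_powT_wl {S : Set G} (hS : Subgroup.closure S = ⊤) (g : G) :
    g ∈ (S ∪ S⁻¹) ^ (wl S g) := Nat.sInf_mem (s := {n : ℕ | g ∈ (S ∪ S⁻¹) ^ n}) (exists_powT hS g)

lemma wl_le {S : Set G} {g : G} {n : ℕ} (h : g ∈ (S ∪ S⁻¹) ^ n) : wl S g ≤ n := Nat.sInf_le h

lemma wl_one (S : Set G) : wl S (1 : G) = 0 :=
  Nat.le_zero.1 (wl_le (by rw [pow_zero]; rfl))

lemma wl_mul {S : Set G} (hS : Subgroup.closure S = ⊤) (g h : G) :
    wl S (g * h) ≤ wl S g + wl S h :=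
  wl_le (by rw [pow_add]; exact Set.mul_mem_mul (mem_powT_wl hS g) (mem_powT_wl hS h))

lemma wl_inv_le {S : Set G} (hS : Subgroup.closure S = ⊤) (g : G) : wl S g⁻¹ ≤ wl S g :=
  wl_le (inv_mem_powT (mem_powT_wl hS g))

lemma wl_inv {S : Set G} (hS : Subgroup.closure S = ⊤) (g : G) : wl S g⁻¹ = wl S g :=
  le_antisymm (wl_inv_le hS g) (by simpa using wl_inv_le hS g⁻¹)

lemma wl_gen {S : Set G} {g : G} (hg : g ∈ S) : wl S g ≤ 1 :=
  wl_le (by rw [pow_one]; exact Or.inl hg)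

lemma wl_isLen {S : Set G} (hS : Subgroup.closure S = ⊤) : IsLen (fun g => (wl S g : ℝ)) where
  nonneg _ := Nat.cast_nonneg _
  mul g h := by exact_mod_cast wl_mul hS g h
  inv g := by exact_mod_cast wl_inv hS g

lemma wl_hLen {S : Set G} (hS : Subgroup.closure S = ⊤) {δ : ℝ}
    (hδ : ∀ x y z : G, min (wgp S x y) (wgp S y z) - δ ≤ wgp S x z) :
    HLen (fun g => (wl S g : ℝ)) (max δ 0) where
  toIsLen := wl_isLen hS
  one := by simp [wl_one]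
  hyp x y z := by
    have := hδ x y z
    have h2 := le_max_left δ 0
    have h3 : min (wgp S x y) (wgp S y z) - max δ 0 ≤ wgp S x z := by linarith
    exact h3
  dnn := le_max_right _ _

end Pool.Agent.Y35.QP
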