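import Pool.Agent.Y35.QP.Grp
import Pool.Agent.Y35.QP.Word

/-!
# The tree structure
-/

set_option autoImplicit false

namespace Pool.Agent.Y35.QP

open Equiv
open scoped Pointwise

/-- The set of levels below the merging level. -/
def Ls (a b : GG) : Set ℤ :=
  {l | l ≤ sl a ∧ l ≤ sl b ∧ ∀ x, x < 0 → a.1 (x - sl a + l) = b.1 (x - sl b + l)}

lemma Ls_down {a b : GG} {l l' : ℤ} (h : l ∈ Ls a b) (hl : l' ≤ l) : l' ∈ Ls a b := by
  refine ⟨hl.trans h.1, hl.trans h.2.1, fun x hx => ?_⟩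
  have := h.2.2 (x + l' - l) (by omega)
  have e1 : x + l' - l - sl a + l = x - sl a + l' := by ring
  have e2 : x + l' - l - sl b + l = x - sl b + l' := by ring
  rwa [e1, e2] at this

lemma Ls_exists (a b : GG) : ∃ l, l ∈ Ls a b := by
  obtain ⟨m, hm⟩ := sl_spec a
  obtain ⟨m', hm'⟩ := sl_spec b
  refine ⟨min (min (sl a) (sl b)) (min (m + sl a) (m' + sl b)), ?_, ?_, ?_⟩
  · exact (min_le_left _ _).trans (min_le_left _ _)
  · exact (min_le_left _ _).trans (min_le_right _ _)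
  · intro x hx
    rw [hm, hm']
    · ring
    · omega
    · omega

lemma exists_ml (a b : GG) : ∃ m, m ∈ Ls a b ∧ ∀ z ∈ Ls a b, z ≤ m :=
  Int.exists_greatest_of_bdd (P := fun z => z ∈ Ls a b) ⟨sl a, fun _ hz => hz.1⟩ (Ls_exists a b)

/-- merging level -/
noncomputable def ml (a b : GG) : ℤ := (exists_ml a b).choose

lemma ml_mem (a b : GG) : ml a b ∈ Ls a b := (exists_ml a b).choose_spec.1

lemma le_ml {a b : GG} {z : ℤ} (h : z ∈ Ls a b) : z ≤ ml a b := (exists_ml a b).choose_spec.2 z h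

lemma Ls_symm {a b : GG} {l : ℤ} (h : l ∈ Ls a b) : l ∈ Ls b a :=
  ⟨h.2.1, h.1, fun x hx => (h.2.2 x hx).symm⟩

lemma ml_comm (a b : GG) : ml a b = ml b a :=
  le_antisymm (le_ml (Ls_symm (ml_mem a b))) (le_ml (Ls_symm (ml_mem b a)))

lemma ml_le_left (a b : GG) : ml a b ≤ sl a := (ml_mem a b).1

lemma ml_le_right (a b : GG) : ml a b ≤ sl b := (ml_mem a b).2.1

lemma ml_self (a : GG) : ml a a = sl a :=
  le_antisymm (ml_le_left a a) (le_ml ⟨le_rfl, le_rfl, fun _ _ => rfl⟩)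

lemma ml_ultra (a b c : GG) : min (ml a b) (ml b c) ≤ ml a c := by
  have h1 := Ls_down (ml_mem a b) (min_le_left _ (ml b c))
  have h2 := Ls_down (ml_mem b c) (min_le_right (ml a b) _)
  exact le_ml ⟨h1.1, h2.2.1, fun x hx => (h1.2.2 x hx).trans (h2.2.2 x hx)⟩

lemma Ls_mul {a b : GG} {l : ℤ} (g : GG) (h : l ∈ Ls a b) : l + sl g ∈ Ls (g * a) (g * b) := by
  refine ⟨?_, ?_, fun x hx => ?_⟩
  · rw [sl_mul]; have := h.1; omega
  · rw [sl_mul]; have := h.2.1; omega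
  · rw [mul_app, mul_app, sl_mul, sl_mul]
    have e1 : x - (sl g + sl a) + (l + sl g) = x - sl a + l := by ring
    have e2 : x - (sl g + sl b) + (l + sl g) = x - sl b + l := by ring
    rw [e1, e2, h.2.2 x hx]

lemma ml_mul (g a b : GG) : ml (g * a) (g * b) = ml a b + sl g := by
  apply le_antisymm
  · have := Ls_mul g⁻¹ (ml_mem (g * a) (g * b))
    rw [inv_mul_cancel_left, inv_mul_cancel_left, sl_inv] at this
    have := le_ml this
    omega
  · exact le_ml (Ls_mul g (ml_mem a b))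

/-- tree distance -/
noncomputable def dd (a b : GG) : ℤ := sl a + sl b - 2 * ml a b

lemma dd_mul (g a b : GG) : dd (g * a) (g * b) = dd a b := by
  rw [dd, dd, ml_mul, sl_mul, sl_mul]; ring

lemma dd_comm (a b : GG) : dd a b = dd b a := by
  rw [dd, dd, ml_comm]; ring

lemma dd_tri (a b c : GG) : dd a c ≤ dd a b + dd b c := by
  have h := ml_ultra a b c
  have h1 := ml_le_right a b
  have h2 := ml_le_left b c
  rw [dd, dd, dd]
  omega

lemma dd_inv_mul (a b : GG) : dd 1 (a⁻¹ * b) = dd a b := by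
  have := dd_mul a 1 (a⁻¹ * b)
  rw [mul_one, mul_inv_cancel_left] at this
  exact this.symm

lemma dd_abs (a : GG) : |sl a| ≤ dd 1 a := by
  have h1 := ml_le_left 1 a
  have h2 := ml_le_right 1 a
  rw [sl_one] at h1
  rw [dd, sl_one, abs_le]
  constructor <;> omega

lemma four (x y z : GG) :
    min (ml x y - ml x 1 - ml y 1) (ml y z - ml y 1 - ml z 1) ≤ ml x z - ml x 1 - ml z 1 := by
  have a1 := ml_ultra x y z
  have a2 := ml_ultra y x z
  have a3 := ml_ultra x z y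
  have b1 := ml_ultra x 1 y
  have b2 := ml_ultra 1 x y
  have b3 := ml_ultra x y 1
  have c1 := ml_ultra y 1 z
  have c2 := ml_ultra 1 y z
  have c3 := ml_ultra y z 1
  have d1 := ml_ultra x 1 z
  have d2 := ml_ultra 1 x z
  have d3 := ml_ultra x z 1
  rw [ml_comm y x] at *
  rw [ml_comm z y] at *
  rw [ml_comm 1 x] at *
  rw [ml_comm 1 y] at *
  rw [ml_comm 1 z] at *
  omega

/-- The generating set. -/
def XX : Set GG := KK 0 ∪ {tt}

lemma dd_one_KK {g : GG} (hg : g ∈ KK 0) : dd 1 g = 0 := by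
  have h1 : (0 : ℤ) ∈ Ls 1 g := by
    refine ⟨by rw [sl_one], by rw [KK_sl hg], fun x hx => ?_⟩
    rw [sl_one, KK_sl hg]
    simp only [sub_zero, add_zero]
    exact (hg x (by omega)).symm
  have h2 := le_ml h1
  have h3 := ml_le_left 1 g
  rw [sl_one] at h3
  rw [dd, sl_one, KK_sl hg]
  omega

lemma zero_mem_Ls_pow (k : ℕ) : (0 : ℤ) ∈ Ls 1 (tt ^ k) := by
  have hs : sl (tt ^ k) = k := by rw [sl_pow, sl_tt, mul_one]
  refine ⟨by rw [sl_one], by rw [hs]; omega, fun x hx => ?_⟩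
  rw [sl_one, hs, tt_pow_apply]
  simp

lemma dd_one_tt : dd 1 tt = 1 := by
  have h1 := le_ml (zero_mem_Ls_pow 1)
  rw [pow_one] at h1
  have h3 := ml_le_left 1 tt
  rw [sl_one] at h3
  rw [dd, sl_one, sl_tt]
  omega

lemma dd_one_gen {g : GG} (hg : g ∈ XX ∪ XX⁻¹) : dd 1 g ≤ 1 := by
  have h : ∀ g ∈ XX, dd 1 g ≤ 1 := by
    rintro g (hg | hg)
    · rw [dd_one_KK hg]; omega
    · rw [Set.mem_singleton_iff.1 hg, dd_one_tt]
  rcases hg with hg | hg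
  · exact h g hg
  · have h1 := h _ hg
    rw [dd_comm]
    have h2 := dd_inv_mul g 1
    rw [mul_one] at h2
    rwa [← h2]

lemma dd_le_of_mem {n : ℕ} : ∀ g ∈ (XX ∪ XX⁻¹) ^ n, dd 1 g ≤ n := by
  induction n with
  | zero =>
    intro g hg
    rw [pow_zero] at hg
    rw [Set.mem_one.1 hg, dd, sl_one, ml_self, sl_one]
    simp
  | succ n ih =>
    intro g hg
    rw [pow_succ] at hg
    obtain ⟨a, ha, b, hb, rfl⟩ := Set.mem_mul.1 hg
    have h1 := dd_tri 1 a (a * b)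
    have h2 := dd_mul a 1 b
    rw [mul_one] at h2
    have h3 := dd_one_gen hb
    have h4 := ih a ha
    push_cast
    omega

/-- normal form -/
lemma norm_form (g : GG) : ∃ i j : ℕ, ∃ k ∈ KK 0, g = (tt ^ i)⁻¹ * k * tt ^ j ∧
    (i : ℤ) = - ml 1 g ∧ (j : ℤ) = sl g - ml 1 g := by
  have h1 := ml_le_left 1 g
  have h2 := ml_le_right 1 g
  rw [sl_one] at h1
  obtain ⟨i, hi⟩ : ∃ i : ℕ, (i : ℤ) = - ml 1 g := ⟨(- ml 1 g).toNat, by omega⟩
  obtain ⟨j, hj⟩ : ∃ j : ℕ, (j : ℤ) = sl g - ml 1 g := ⟨(sl g - ml 1 g).toNat, by omega⟩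
  refine ⟨i, j, tt ^ i * g * (tt ^ j)⁻¹, ?_, by group, hi, hj⟩
  intro x hx
  have h3 := (ml_mem 1 g).2.2 x (by omega)
  rw [sl_one] at h3
  rw [mul_app, mul_app, tt_pow_inv_apply, tt_pow_apply]
  have e : x - (j : ℤ) = x - sl g + ml 1 g := by omega
  rw [e, ← h3]
  show (1 : Perm ℤ) (x - 0 + ml 1 g) + (i : ℤ) = x
  rw [Perm.one_apply]
  omega

lemma XX_top : Subgroup.closure XX = ⊤ := by
  rw [eq_top_iff]
  intro g _
  obtain ⟨i, j, k, hk, rfl, -, -⟩ := norm_form g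
  have ht : tt ∈ Subgroup.closure XX := Subgroup.subset_closure (Or.inr rfl)
  have hk' : k ∈ Subgroup.closure XX := Subgroup.subset_closure (Or.inl hk)
  exact Subgroup.mul_mem _ (Subgroup.mul_mem _ (Subgroup.inv_mem _ (Subgroup.pow_mem _ ht _)) hk')
    (Subgroup.pow_mem _ ht _)

lemma le_wl (g : GG) : dd 1 g ≤ wl XX g := dd_le_of_mem g (mem_powT_wl XX_top g)

lemma wl_le_dd (g : GG) : (wl XX g : ℤ) ≤ dd 1 g + 1 := by
  obtain ⟨i, j, k, hk, hg, hi, hj⟩ := norm_form g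
  have ht : wl XX tt ≤ 1 := wl_gen (Or.inr rfl)
  have hk' : wl XX k ≤ 1 := wl_gen (Or.inl hk)
  have hp : ∀ n : ℕ, wl XX (tt ^ n) ≤ n := by
    intro n
    induction n with
    | zero => simp [wl_one]
    | succ n ih =>
      rw [pow_succ]
      have := wl_mul XX_top (tt ^ n) tt
      omega
  have h1 := wl_mul XX_top ((tt ^ i)⁻¹ * k) (tt ^ j)
  have h2 := wl_mul XX_top (tt ^ i)⁻¹ k
  rw [← hg] at h1
  rw [wl_inv XX_top] at h2
  have h3 := hp i
  have h4 := hp j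
  have h5 : dd 1 g = i + j := by
    rw [dd, sl_one]; omega
  omega

lemma wgp_ge (a b : GG) : ((ml a b - ml a 1 - ml b 1 : ℤ) : ℝ) - 1 / 2 ≤ wgp XX a b := by
  have h1 := le_wl a
  have h2 := le_wl b
  have h3 := wl_le_dd (a⁻¹ * b)
  rw [dd_inv_mul] at h3
  have h1' : ((dd 1 a : ℤ) : ℝ) ≤ wl XX a := by exact_mod_cast h1
  have h2' : ((dd 1 b : ℤ) : ℝ) ≤ wl XX b := by exact_mod_cast h2
  have h3' : (wl XX (a⁻¹ * b) : ℝ) ≤ ((dd a b : ℤ) : ℝ) + 1 := by exact_mod_cast h3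
  rw [wgp]
  rw [dd, sl_one, ml_comm 1 a] at h1'
  rw [dd, sl_one, ml_comm 1 b] at h2'
  rw [dd] at h3'
  push_cast at *
  linarith

lemma wgp_le (a b : GG) : wgp XX a b ≤ ((ml a b - ml a 1 - ml b 1 : ℤ) : ℝ) + 1 := by
  have h1 := wl_le_dd a
  have h2 := wl_le_dd b
  have h3 := le_wl (a⁻¹ * b)
  rw [dd_inv_mul] at h3
  have h1' : (wl XX a : ℝ) ≤ ((dd 1 a : ℤ) : ℝ) + 1 := by exact_mod_cast h1
  have h2' : (wl XX b : ℝ) ≤ ((dd 1 b : ℤ) : ℝ) + 1 := by exact_mod_cast h2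
  have h3' : ((dd a b : ℤ) : ℝ) ≤ (wl XX (a⁻¹ * b) : ℝ) := by exact_mod_cast h3
  rw [wgp]
  rw [dd, sl_one, ml_comm 1 a] at h1'
  rw [dd, sl_one, ml_comm 1 b] at h2'
  rw [dd] at h3'
  push_cast at *
  linarith

lemma XX_hyp (x y z : GG) : min (wgp XX x y) (wgp XX y z) - 3 / 2 ≤ wgp XX x z := by
  have h := four x y z
  have h1 := wgp_le x y
  have h2 := wgp_le y z
  have h3 := wgp_ge x z
  have h' : min ((ml x y - ml x 1 - ml y 1 : ℤ) : ℝ) ((ml y z - ml y 1 - ml z 1 : ℤ) : ℝ) ≤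
      ((ml x z - ml x 1 - ml z 1 : ℤ) : ℝ) := by exact_mod_cast h
  rcases min_le_iff.1 h' with h4 | h4
  · have := min_le_left (wgp XX x y) (wgp XX y z)
    linarith
  · have := min_le_right (wgp XX x y) (wgp XX y z)
    linarith

lemma KK_pow {M : ℤ} {g : GG} (hg : g ∈ KK M) (n : ℕ) : g ^ n ∈ KK M := by
  induction n with
  | zero => simpa using KK_one M
  | succ n ih => rw [pow_succ]; exact KK_mul ih hg

lemma wl_KK {M : ℕ} {g : GG} (hg : g ∈ KK M) : wl XX g ≤ 2 * M + 1 := by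
  have h1 : -(M : ℤ) ∈ Ls 1 g := by
    refine ⟨by rw [sl_one]; omega, by rw [KK_sl hg]; omega, fun x hx => ?_⟩
    rw [sl_one, KK_sl hg]
    have e : x - 0 + -(M : ℤ) = x - M := by ring
    rw [e, hg (x - M) (by omega)]
    rfl
  have h2 := le_ml h1
  have h3 := wl_le_dd g
  rw [dd, sl_one, KK_sl hg] at h3
  omega

lemma lox_iff (g : GG) : wlox XX g ↔ sl g ≠ 0 := by
  constructor
  · rintro ⟨c, hc, h⟩ h0
    obtain ⟨M, hM⟩ := exists_KK h0
    obtain ⟨n, hn⟩ := exists_nat_gt ((2 * M + 1) / c)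
    have h1 := h n
    have h2 : (wl XX (g ^ n) : ℝ) ≤ 2 * M + 1 := by exact_mod_cast wl_KK (KK_pow hM n)
    rw [div_lt_iff₀ hc] at hn
    linarith
  · intro h0
    refine ⟨1, one_pos, fun n => ?_⟩
    have h1 := le_wl (g ^ n)
    have h2 := dd_abs (g ^ n)
    rw [sl_pow, abs_mul] at h2
    have h3 : 1 ≤ |sl g| := Int.one_le_abs h0
    have h4 : (n : ℤ) ≤ wl XX (g ^ n) := by
      have h5 : |(n : ℤ)| = n := abs_of_nonneg (by omega)
      rw [h5] at h2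
      nlinarith
    rw [one_mul]
    exact_mod_cast h4

lemma neg_pow_apply {g : GG} {M : ℤ} (hM : ∀ x, x < M → g.1 x = x + sl g) (hneg : sl g < 0)
    (n : ℕ) : ∀ x, x < M → (g ^ n).1 x = x + n * sl g := by
  induction n with
  | zero => intro x _; simp
  | succ n ih =>
    intro x hx
    rw [pow_succ, mul_app, hM x hx, ih _ (by omega)]
    push_cast
    ring

lemma se_neg {g h : GG} (hg : sl g < 0) (hh : sl h < 0) : wse XX g h := by
  intro K
  obtain ⟨m, hm⟩ := sl_spec g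
  obtain ⟨m', hm'⟩ := sl_spec h
  obtain ⟨M, hM1, hM2⟩ : ∃ M : ℕ, -(M : ℤ) ≤ m ∧ -(M : ℤ) ≤ m' :=
    ⟨(max (-m) (-m')).toNat, by omega, by omega⟩
  have hg' := neg_pow_apply (M := -(M : ℤ)) (fun x hx => hm x (by omega)) hg
  have hh' := neg_pow_apply (M := -(M : ℤ)) (fun x hx => hm' x (by omega)) hh
  obtain ⟨N, hN⟩ := exists_nat_gt (K + M + 1)
  refine ⟨N, fun n k hn hk => ?_⟩
  have h1 := wgp_ge (g ^ n) (h ^ k)
  have h2 : min (n * sl g) (k * sl h) - M ∈ Ls (g ^ n) (h ^ k) := by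
    refine ⟨by rw [sl_pow]; omega, by rw [sl_pow]; omega, fun x hx => ?_⟩
    rw [sl_pow, sl_pow, hg' n _ (by omega), hh' k _ (by omega)]
    ring
  have h3 := le_ml h2
  have h4 := ml_le_left (g ^ n) 1
  have h5 := ml_le_left (h ^ k) 1
  rw [sl_pow] at h4 h5
  have h6 : (n : ℤ) * sl g ≤ -n := by nlinarith
  have h7 : (k : ℤ) * sl h ≤ -k := by nlinarith
  have h8 : (N : ℤ) - M ≤ ml (g ^ n) (h ^ k) - ml (g ^ n) 1 - ml (h ^ k) 1 := by
    have : (N : ℤ) ≤ n := by exact_mod_cast hn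
    have : (N : ℤ) ≤ k := by exact_mod_cast hk
    omega
  have h9 : (N : ℝ) - M ≤ ((ml (g ^ n) (h ^ k) - ml (g ^ n) 1 - ml (h ^ k) 1 : ℤ) : ℝ) := by
    exact_mod_cast h8
  linarith

/-- second loxodromic element -/
def hh : GG := sw 0 1 * tt * (sw 0 1)⁻¹

lemma hh_pow (m : ℕ) : hh ^ m = sw 0 1 * tt ^ m * (sw 0 1)⁻¹ := by
  rw [hh, conj_pow]

lemma sl_sw (a b : ℤ) : sl (sw a b) = 0 :=
  sl_eq (m := min a b) (fun x hx => by
    rw [sw_ne (by omega) (by omega), add_zero])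

lemma sl_hh_pow (m : ℕ) : sl (hh ^ m) = m := by
  rw [hh_pow, sl_mul, sl_mul, sl_inv, sl_sw, sl_pow, sl_tt]
  ring

lemma hh_pow_apply (m : ℕ) {y : ℤ} (hy : y < 0) : (hh ^ m).1 y = (sw 0 1).1 (y + m) := by
  have e : (sw 0 1).1 y = y := sw_ne (by omega) (by omega)
  rw [hh_pow, mul_app, mul_app, sw_inv, e, tt_pow_apply]

lemma not_se_pos : ¬ wse XX tt hh := by
  intro h
  obtain ⟨N, hN⟩ := h 2
  have h1 := hN (N + 1) (N + 1) (by omega) (by omega)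
  have h2 := wgp_le (tt ^ (N + 1)) (hh ^ (N + 1))
  have h3 := le_ml (zero_mem_Ls_pow (N + 1))
  rw [ml_comm] at h3
  have h4 : (0 : ℤ) ≤ ml (hh ^ (N + 1)) 1 := by
    apply le_ml
    refine ⟨by rw [sl_hh_pow]; omega, by rw [sl_one], fun x hx => ?_⟩
    rw [sl_hh_pow, sl_one, hh_pow_apply _ (by omega)]
    have e : x - ((N + 1 : ℕ) : ℤ) + 0 + ((N + 1 : ℕ) : ℤ) = x := by ring
    rw [e, sw_ne (by omega) (by omega)]
    simp
  have h5 : ml (tt ^ (N + 1)) (hh ^ (N + 1)) ≤ 0 := by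
    by_contra hlt
    have hmem := Ls_down (ml_mem (tt ^ (N + 1)) (hh ^ (N + 1))) (l' := 1) (by omega)
    have h6 := hmem.2.2 (-1) (by omega)
    have hs : sl (tt ^ (N + 1)) = (N + 1 : ℕ) := by rw [sl_pow, sl_tt, mul_one]
    rw [hs, sl_hh_pow, tt_pow_apply, hh_pow_apply _ (by push_cast; omega)] at h6
    have e : -1 - ((N + 1 : ℕ) : ℤ) + 1 + ((N + 1 : ℕ) : ℤ) = 0 := by ring
    rw [e, sw_left] at h6
    omega
  have h6 : ((ml (tt ^ (N + 1)) (hh ^ (N + 1)) - ml (tt ^ (N + 1)) 1 - ml (hh ^ (N + 1)) 1 : ℤ) : ℝ)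
      ≤ 0 := by
    have : (ml (tt ^ (N + 1)) (hh ^ (N + 1)) - ml (tt ^ (N + 1)) 1 - ml (hh ^ (N + 1)) 1 : ℤ) ≤ 0 := by
      omega
    exact_mod_cast this
  linarith

lemma not_se_neg : ¬ wse XX tt hh⁻¹ := by
  intro h
  obtain ⟨N, hN⟩ := h 2
  have h1 := hN (N + 1) (N + 1) (by omega) (by omega)
  have h2 := wgp_le (tt ^ (N + 1)) (hh⁻¹ ^ (N + 1))
  have h3 := le_ml (zero_mem_Ls_pow (N + 1))
  rw [ml_comm] at h3
  have h4 := ml_le_right (tt ^ (N + 1)) (hh⁻¹ ^ (N + 1))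
  have hs : sl (hh⁻¹ ^ (N + 1)) = -((N : ℤ) + 1) := by
    rw [inv_pow, sl_inv, sl_hh_pow]; push_cast; ring
  rw [hs] at h4
  have h5 := ml_ultra (hh⁻¹ ^ (N + 1)) (tt ^ (N + 1)) 1
  rw [ml_comm (hh⁻¹ ^ (N + 1)) (tt ^ (N + 1))] at h5
  have h6 : ((ml (tt ^ (N + 1)) (hh⁻¹ ^ (N + 1)) - ml (tt ^ (N + 1)) 1 -
      ml (hh⁻¹ ^ (N + 1)) 1 : ℤ) : ℝ) ≤ 0 := by
    have : (ml (tt ^ (N + 1)) (hh⁻¹ ^ (N + 1)) - ml (tt ^ (N + 1)) 1 -
      ml (hh⁻¹ ^ (N + 1)) 1 : ℤ) ≤ 0 := by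
      omega
    exact_mod_cast this
  linarith

theorem XX_qp : wqp XX := by
  refine ⟨XX_top, ⟨3 / 2, XX_hyp⟩, ⟨tt, hh, ?_, ?_, ?_⟩, ?_⟩
  · rw [lox_iff, sl_tt]; omega
  · rw [lox_iff]
    have := sl_hh_pow 1
    rw [pow_one] at this
    rw [this]; simp
  · rintro (h | h)
    · exact not_se_pos h.1
    · exact not_se_neg h.1
  · intro g h hg hh
    rw [lox_iff] at hg hh
    rcases lt_or_gt_of_ne hg with h1 | h1 <;> rcases lt_or_gt_of_ne hh with h2 | h2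
    · exact Or.inl (se_neg h1 h2)
    · exact Or.inr (Or.inl (se_neg h1 (by rw [sl_inv]; omega)))
    · exact Or.inr (Or.inr (Or.inl (se_neg (by rw [sl_inv]; omega) h2)))
    · exact Or.inr (Or.inr (Or.inr (se_neg (by rw [sl_inv]; omega) (by rw [sl_inv]; omega))))

end Pool.Agent.Y35.QP
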